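import Pool.Agent.Helper26K1.AP.Cls

/-!
# Closure: from characters to Riemann integrable functions and to bounded functions

The same as `Pool/Agent/Helper26K1/AP/Cls.lean`, with the convergence for characters as hypothesis.
-/

set_option autoImplicit false
set_option linter.unusedSectionVars false

open Filter Topology MeasureTheory

noncomputable section

namespace Pool.Agent.Helper26K1.AB

open Pool.Agent.Helper26K1.AP (pw ex gj Riem bd_cont Riem.bd)
open Pool.Agent.TH784.AA (IsAff IsAff.mp isAff_prod two_sided TP TP_dense TP_dense_L1 BM_of_TP chi_mem)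
open Pool.Agent.TH635.FB (av avr Cv Cv_add Cv_smul Cv_zero Cv_closed_sup Cv_closed' Cv_closed Bd
  SingleGood clampC clampC_cont clampC_bd clampC_eq avr_of_sides)

universe u

variable {X : Type u} [CommGroup X] [TopologicalSpace X] [IsTopologicalGroup X] [CompactSpace X]
  [T2Space X] [MeasurableSpace X] [BorelSpace X] {μ : Measure X} [μ.IsHaarMeasure]
  [IsProbabilityMeasure μ] {d m : ℕ}

/-- the hypotheses on the maps -/
structure SideAll (μ : Measure X) (T : Fin d → Equiv.Perm X) : Prop where
  aff : ∀ i, IsAff (T i : X → X)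
  side : ∀ (m : ℕ) (P : Fin m → Fin d → Polynomial ℤ) (χ : Fin m → X →ₜ* Circle),
    ∀ᵐ x ∂μ, ∃ L : ℂ, Tendsto (fun N => Pool.Agent.W761.Box.bxc 1 N fun n =>
      ∏ j, (χ j ((pw T (ex (P j) (n 0)) : Equiv.Perm X) x) : ℂ)) atTop (𝓝 L)

variable {T : Fin d → Equiv.Perm X}

theorem gj_mp (h : SideAll μ T) (P : Fin d → Fin m → Polynomial ℤ) (j : Fin m) (n : ℤ) :
    MeasurePreserving (gj T P j n) μ μ :=
  IsAff.mp (isAff_prod h.aff _)

theorem Cv_chars (h : SideAll μ T) (P : Fin d → Fin m → Polynomial ℤ) (χ : Fin m → X →ₜ* Circle) :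
    Cv μ (gj T P) (fun j x => (χ j x : ℂ)) := by
  have h1 := h.side m (fun j i => P i j) χ
  have h2 := h.side m (fun j i => (P i j).comp (-Polynomial.X)) χ
  filter_upwards [h1, h2] with x hx1 hx2
  obtain ⟨L, hL⟩ := two_sided (F := fun z : ℤ => ∏ j, (χ j (gj T P j z x) : ℂ)) hx1 (by
    obtain ⟨L, hL⟩ := hx2
    refine ⟨L, hL.congr fun N => ?_⟩
    congr 1
    funext n
    refine Finset.prod_congr rfl fun j _ => ?_
    congr 2
    unfold gj
    congr 2
    funext i
    unfold ex
    rw [Polynomial.eval_comp, Polynomial.eval_neg, Polynomial.eval_X])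
  exact ⟨L, hL⟩

/-- products of continuous functions -/
theorem Cv_cont (h : SideAll μ T) (P : Fin d → Fin m → Polynomial ℤ) {F : Fin m → X → ℂ}
    (hF : ∀ j, Continuous (F j)) : Cv μ (gj T P) F := by
  classical
  have key : ∀ (S : Finset (Fin m)) (F : Fin m → X → ℂ), (∀ j, Continuous (F j)) →
      (∀ j, j ∉ S → ∃ χ : X →ₜ* Circle, F j = fun x => (χ x : ℂ)) → Cv μ (gj T P) F := by
    intro S
    induction S using Finset.induction_on with
    | empty =>
      intro F _ h2
      choose χ hχ using fun j => h2 j (Finset.notMem_empty j)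
      have e : F = fun j x => (χ j x : ℂ) := funext hχ
      rw [e]
      exact Cv_chars h P χ
    | insert j S hj ih =>
      intro F h1 h2
      have hmain : Cv μ (gj T P) (Function.update F j (F j)) := by
        refine Cv_closed_sup (fun l => bd_cont (h1 l)) fun ε hε => ?_
        obtain ⟨f', hf', _, hff'⟩ := TP_dense (⟨F j, h1 j⟩ : C(X, ℂ)) hε
        refine ⟨f', hff', ?_⟩
        refine Submodule.span_induction
          (p := fun (f' : X → ℂ) _ => Cv μ (gj T P) (Function.update F j f')) ?_ ?_ ?_ ?_ hf'
        · rintro _ ⟨χ, rfl⟩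
          apply ih
          · intro l
            by_cases hlj : l = j
            · subst hlj
              rw [Function.update_self]
              exact continuous_subtype_val.comp χ.continuous_toFun
            · rw [Function.update_of_ne hlj]
              exact h1 l
          · intro l hl
            by_cases hlj : l = j
            · subst hlj
              exact ⟨χ, by rw [Function.update_self]⟩
            · rw [Function.update_of_ne hlj]
              apply h2
              intro hmem'
              rcases Finset.mem_insert.mp hmem' with h5 | h5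
              · exact hlj h5
              · exact hl h5
        · exact Cv_zero
        · rintro g₁ g₂ _ _ c₁ c₂
          exact Cv_add c₁ c₂
        · rintro c g₁ _ c₁
          exact Cv_smul c c₁
      rwa [Function.update_eq_self] at hmain
  exact key Finset.univ F hF fun j hj => absurd (Finset.mem_univ j) hj

theorem single_cont (h : SideAll μ T) (P : Fin d → Fin m → Polynomial ℤ) (j : Fin m) {K : X → ℝ}
    (hK : Continuous K) :
    ∀ᵐ x ∂μ, ∃ L : ℝ, Tendsto (fun N => avr N fun n => K (gj T P j n x)) atTop (𝓝 L) := by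
  have h := Cv_cont (μ := μ) h (fun i (_ : Fin 1) => P i j) (F := fun _ x => (K x : ℂ))
    (fun _ => Complex.continuous_ofReal.comp hK)
  filter_upwards [h] with x hx
  obtain ⟨L, hL⟩ := hx
  refine ⟨L.re, ?_⟩
  have h1 := (Complex.continuous_re.tendsto L).comp hL
  refine h1.congr fun N => ?_
  simp only [Function.comp_apply, av, avr, Fin.prod_univ_one]
  have e : ((2 * N + 1 : ℕ) : ℂ)⁻¹ = (((2 * N + 1 : ℕ) : ℝ)⁻¹ : ℝ) := by push_cast; rfl
  rw [e, ← Complex.ofReal_sum, ← Complex.ofReal_mul, Complex.ofReal_re]
  rfl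

/-- bounded functions -/
theorem main_bdd (h : SideAll μ T) (P : Fin d → Fin m → Polynomial ℤ) {F : Fin m → X → ℂ}
    (hb : ∀ j, Bd (F j)) (hF : ∀ j, Riem μ (F j) ∨ (Measurable (F j) ∧ SingleGood μ (gj T P j))) :
    Cv μ (gj T P) F := by
  classical
  have hcr : ∀ u : X → ℝ, Continuous u → ∃ C, ∀ x, |u x| ≤ C := fun u hu =>
    ⟨‖(⟨u, hu⟩ : C(X, ℝ))‖, fun x => ContinuousMap.norm_coe_le_norm (⟨u, hu⟩ : C(X, ℝ)) x⟩
  have key : ∀ S : Finset (Fin m), ∀ F : Fin m → X → ℂ, (∀ j, Bd (F j)) →
      (∀ j ∈ S, Riem μ (F j) ∨ (Measurable (F j) ∧ SingleGood μ (gj T P j))) →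
      (∀ j, j ∉ S → Continuous (F j)) → Cv μ (gj T P) F := by
    intro S
    induction S using Finset.induction_on with
    | empty =>
      intro F _ _ h'
      exact Cv_cont h P fun j => h' j (Finset.notMem_empty j)
    | insert j S hj ih =>
      intro F hb hg hc
      have hup : ∀ u : X → ℂ, Continuous u → Cv μ (gj T P) (Function.update F j u) := by
        intro u hu
        apply ih
        · intro l
          by_cases hl : l = j
          · subst hl
            rw [Function.update_self]
            exact bd_cont hu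
          · rw [Function.update_of_ne hl]
            exact hb l
        · intro l hl
          have hlj : l ≠ j := fun h => hj (h ▸ hl)
          rw [Function.update_of_ne hlj]
          exact hg l (Finset.mem_insert_of_mem hl)
        · intro l hl
          by_cases hlj : l = j
          · subst hlj
            rw [Function.update_self]
            exact hu
          · rw [Function.update_of_ne hlj]
            exact hc l (by
              rw [Finset.mem_insert]
              tauto)
      rw [← Function.update_eq_self j F]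
      rcases hg j (Finset.mem_insert_self j S) with h' | ⟨hm, hs⟩
      · apply Cv_closed' hb (gj_mp h P j)
        intro ε hε
        obtain ⟨u, K, hu, hK, huK, hKi⟩ := h' ε hε
        exact ⟨u, K, hK.measurable, hcr K hK, huK, hKi, single_cont h P j hK, hup u hu⟩
      · apply Cv_closed hb (gj_mp h P j) hs ⟨hm, hb j⟩
        intro ε hε
        have hint : Integrable (F j) μ := by
          obtain ⟨C, hC⟩ := hb j
          exact Integrable.of_bound hm.aestronglyMeasurable C (Eventually.of_forall hC)
        have hreg : μ.Regular := inferInstance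
        obtain ⟨g, hg, hgi⟩ := hint.exists_boundedContinuous_integral_sub_le hε
        exact ⟨g, ⟨g.continuous.measurable, bd_cont g.continuous⟩, hg, hup g g.continuous⟩
  exact key Finset.univ F hb (fun j _ => hF j) fun j hj => absurd (Finset.mem_univ j) hj

theorem main_top (h : SideAll μ T) (P : Fin d → Fin m → Polynomial ℤ) {f : Fin m → X → ℂ}
    (hf : ∀ j, Riem μ (f j) ∨ (MemLp (f j) ⊤ μ ∧ SingleGood μ (gj T P j))) :
    Cv μ (gj T P) f := by
  have hrep : ∀ j, ∃ F : X → ℂ, Bd F ∧ (∀ᵐ x ∂μ, f j x = F x) ∧
      (Riem μ F ∨ (Measurable F ∧ SingleGood μ (gj T P j))) := by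
    intro j
    rcases hf j with h' | ⟨hf', hs⟩
    · exact ⟨f j, Riem.bd h', Eventually.of_forall fun _ => rfl, Or.inl h'⟩
    · obtain ⟨C, hC0, hC⟩ : ∃ C : ℝ, 0 ≤ C ∧ ∀ᵐ x ∂μ, ‖f j x‖ ≤ C := by
        refine ⟨(eLpNormEssSup (f j) μ).toReal, ENNReal.toReal_nonneg, ?_⟩
        have h1 := hf'.eLpNorm_lt_top
        rw [eLpNorm_exponent_top] at h1
        filter_upwards [ae_le_eLpNormEssSup (f := f j) (μ := μ)] with x hx
        have h2 := ENNReal.toReal_mono h1.ne hx
        rwa [toReal_enorm] at h2
      have hm := hf'.1.stronglyMeasurable_mk.measurable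
      refine ⟨fun x => clampC C (hf'.1.mk (f j) x), ⟨_, fun x => clampC_bd hC0 _⟩, ?_,
        Or.inr ⟨(clampC_cont _).measurable.comp hm, hs⟩⟩
      filter_upwards [hC, hf'.1.ae_eq_mk] with x hx hx'
      rw [← hx', clampC_eq hx]
  choose F hF1 hF2 hF3 using hrep
  have hmain := main_bdd h P hF1 hF3
  have heq : ∀ᵐ x ∂μ, ∀ (j : Fin m) (n : ℤ), f j (gj T P j n x) = F j (gj T P j n x) := by
    rw [ae_all_iff]
    intro j
    rw [ae_all_iff]
    intro n
    exact (gj_mp h P j n).quasiMeasurePreserving.ae (hF2 j)
  filter_upwards [hmain, heq] with x hx hx'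
  obtain ⟨L, hL⟩ := hx
  refine ⟨L, hL.congr fun N => ?_⟩
  congr 1
  funext n
  exact Finset.prod_congr rfl fun j _ => (hx' j n).symm

end Pool.Agent.Helper26K1.AB
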