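import Pool.Agent.Helper26K1.AB.NPet
import Pool.Agent.Helper26K1.AP.Mod

/-!
# Characters along polynomial orbits of nilpotent groups of affine maps, given the dichotomy for the
labels
-/

set_option autoImplicit false
set_option linter.unusedSectionVars false

open Polynomial Filter Topology MeasureTheory
open scoped ComplexConjugate

noncomputable section

namespace Pool.Agent.Helper26K1.AB

open Pool.Agent.TH784.AA (IsAff IsAC int_ac FewB ae_zero conv_of_residues toU ev_toU sub isAff_prod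
  BB pbk pbk_apply KK mem_KK pbk_KK)
open Pool.Agent.W761.Box (bxc)
open Pool.Agent.H767R2 (ev)
open Pool.Agent.Helper26K1.AP (pw ex PD zc shp ex_shp fewB_one phase_conv fil fil_anti fil_comm
  fil_bot Q_prod pd_pi)

universe u

variable {X : Type u} [CommGroup X] [TopologicalSpace X] [IsTopologicalGroup X] [CompactSpace X]
  [T2Space X] {d : ℕ} {T : Fin d → Equiv.Perm X}

theorem pw_aff (hT : ∀ i, IsAff (T i : X → X)) (a : Fin d → ℤ) :
    IsAff ((pw T a : Equiv.Perm X) : X → X) := isAff_prod hT a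

/-- the linear part of a product of powers -/
def lp (hT : ∀ i, IsAff (T i : X → X)) (a : Fin d → ℤ) : X →ₜ* X := (pw_aff hT a).choose

theorem lp_spec (hT : ∀ i, IsAff (T i : X → X)) (a : Fin d → ℤ) (x : X) :
    (pw T a : Equiv.Perm X) x = lp hT a x * (pw T a : Equiv.Perm X) 1 := by
  obtain ⟨c, h⟩ := (pw_aff hT a).choose_spec
  have h1 : (pw T a : Equiv.Perm X) 1 = c := by
    rw [h]
    show (pw_aff hT a).choose 1 * c = c
    rw [map_one, one_mul]
  rw [h1]
  exact h x

variable {J : Type} [Fintype J]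

/-- the labels -/
def lab (hT : ∀ i, IsAff (T i : X → X)) (P : J → Fin d → ℤ[X]) (χ : J → X →ₜ* Circle) (n : ℕ) :
    Additive (X →ₜ* Circle) := ∑ j, Additive.ofMul ((χ j).comp (lp hT (ex (P j) n)))

/-- the products -/
def prF (T : Fin d → Equiv.Perm X) (P : J → Fin d → ℤ[X]) (χ : J → X →ₜ* Circle) (n : ℕ) :
    BB X := ∑ j, pbk (pw T (ex (P j) n) : Equiv.Perm X) (Additive.ofMul fun x => χ j x)

theorem sum_apply {ι : Type*} (s : Finset ι) (f : ι → BB X) (x : X) :
    (∑ j ∈ s, f j).toMul x = (∑ j ∈ s, Additive.ofMul ((f j).toMul x)).toMul := by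
  classical
  induction s using Finset.induction_on with
  | empty => rfl
  | insert i s hi ih =>
    rw [Finset.sum_insert hi, Finset.sum_insert hi]
    show (f i).toMul x * (∑ j ∈ s, f j).toMul x = (f i).toMul x * _
    rw [ih]

theorem sum_apply' {ι : Type*} (s : Finset ι) (f : ι → Additive (X →ₜ* Circle)) (x : X) :
    (∑ j ∈ s, f j).toMul x = (∑ j ∈ s, Additive.ofMul ((f j).toMul x)).toMul := by
  classical
  induction s using Finset.induction_on with
  | empty => rfl
  | insert i s hi ih =>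
    rw [Finset.sum_insert hi, Finset.sum_insert hi]
    show (f i).toMul x * (∑ j ∈ s, f j).toMul x = (f i).toMul x * _
    rw [ih]

theorem prF_eq (hT : ∀ i, IsAff (T i : X → X)) (P : J → Fin d → ℤ[X]) (χ : J → X →ₜ* Circle)
    (n : ℕ) (x : X) :
    (prF T P χ n).toMul x = (lab hT P χ n).toMul x * (prF T P χ n).toMul 1 := by
  unfold prF lab
  rw [sum_apply, sum_apply, sum_apply', ← toMul_add, ← Finset.sum_add_distrib]
  refine congrArg _ (Finset.sum_congr rfl fun j _ => ?_)
  show Additive.ofMul (χ j ((pw T (ex (P j) n) : Equiv.Perm X) x)) =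
    Additive.ofMul (χ j (lp hT (ex (P j) n) x) * χ j ((pw T (ex (P j) n) : Equiv.Perm X) 1))
  rw [lp_spec hT, map_mul]

theorem prF_ac (hT : ∀ i, IsAff (T i : X → X)) (P : J → Fin d → ℤ[X]) (χ : J → X →ₜ* Circle)
    (n : ℕ) : IsAC (prF T P χ n).toMul :=
  ⟨(lab hT P χ n).toMul, (prF T P χ n).toMul 1, fun x => by rw [prF_eq hT, mul_comm]⟩

/-- the labels have few coincidences or are constant, on residue classes -/
def Dich (hT : ∀ i, IsAff (T i : X → X)) (P : J → Fin d → ℤ[X]) (χ : J → X →ₜ* Circle) : Prop :=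
  ∃ q : ℕ, 1 ≤ q ∧ ∀ r : ℕ, (∀ n, lab hT P χ (r + q * n) = lab hT P χ r) ∨
    ∃ C δ : ℝ, 0 ≤ C ∧ 0 < δ ∧ ∀ c, ∀ N : ℕ, 1 ≤ N →
      (zc (fun n => lab hT P χ (r + q * n) - c) N : ℝ) ≤ C * (N : ℝ) ^ (1 - δ)

/-- a bound for the degrees -/
theorem exists_PD (P : J → Fin d → ℤ[X]) : ∃ D : ℕ, 1 ≤ D ∧ ∀ j, PD (D + 1) (fun n => ex (P j) n) := by
  choose D hD using fun j => pd_pi (P j)
  refine ⟨1 + ∑ j, D j, by omega, fun j => (hD j).mono ?_⟩
  have := Finset.single_le_sum (f := D) (fun _ _ => Nat.zero_le _) (Finset.mem_univ j)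
  omega

/-- phases on classes with constant labels -/
theorem phase_pd (hT : ∀ i, IsAff (T i : X → X))
    (hnil : Group.IsNilpotent (Subgroup.closure (Set.range T)))
    (P : J → Fin d → ℤ[X]) (χ : J → X →ₜ* Circle) (hc : ∀ n, lab hT P χ n = lab hT P χ 0) :
    ∃ E, PD E (fun n => toU (Additive.ofMul ((prF T P χ n).toMul 1))) := by
  obtain ⟨s, hs⟩ := (Subgroup.isNilpotent_iff_lowerCentralSeries _).1 hnil
  set S : Subgroup (Equiv.Perm X) := Subgroup.closure (Set.range T) with hS
  have hTS : ∀ i, T i ∈ S := fun i => Subgroup.subset_closure ⟨i, rfl⟩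
  obtain ⟨D, hD1, hD⟩ := exists_PD P
  have hΦ : Fil (fil S D) := ⟨fil_anti S D, fil_comm S hD1⟩
  have hbot : fil S D (s * D + 1) = ⊥ := fil_bot S hs hD1 le_rfl
  let ρ : Equiv.Perm X → BB X →+ BB X := fun g => pbk ((g⁻¹ : Equiv.Perm X) : X → X)
  set c₀ : BB X := Additive.ofMul fun x => (lab hT P χ 0).toMul x with hc₀
  let g : Option J → ℕ → Equiv.Perm X := fun o => o.elim 1 (fun j n => (pw T (ex (P j) n))⁻¹)
  let v : Option J → BB X := fun o => o.elim (-c₀) (fun j => Additive.ofMul fun x => χ j x)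
  have hsum : ∀ n, ∑ o, ρ (g o n) (v o) = prF T P χ n - c₀ := by
    intro n
    rw [Fintype.sum_option]
    have e1 : ρ (g none n) (v none) = -c₀ := by
      show pbk (((1 : Equiv.Perm X)⁻¹ : Equiv.Perm X) : X → X) (-c₀) = -c₀
      rw [inv_one]
      rfl
    have e2 : ∀ j : J, ρ (g (some j) n) (v (some j)) =
        pbk (pw T (ex (P j) n) : Equiv.Perm X) (Additive.ofMul fun x => χ j x) := by
      intro j
      show pbk ((((pw T (ex (P j) n))⁻¹)⁻¹ : Equiv.Perm X) : X → X)
        (Additive.ofMul fun x => χ j x) = _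
      rw [inv_inv]
    rw [e1, Finset.sum_congr rfl fun j _ => e2 j]
    unfold prF
    abel
  have hval : ∀ n x, (prF T P χ n - c₀).toMul x = (prF T P χ n).toMul 1 := by
    intro n x
    show (prF T P χ n).toMul x / (lab hT P χ 0).toMul x = _
    rw [prF_eq hT, hc, mul_div_cancel_left]
  obtain ⟨E, hE⟩ := npet (hΦ := hΦ) (L := s * D + 1) hbot (ρ := ρ)
    (fun g h x => by
      show pbk (((g * h)⁻¹ : Equiv.Perm X) : X → X) x = _
      rw [mul_inv_rev]
      rfl)
    (fun x => by
      show pbk (((1 : Equiv.Perm X)⁻¹ : Equiv.Perm X) : X → X) x = x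
      rw [inv_one]
      rfl)
    (K := KK X) (fun s _ x hx => pbk_KK _ hx) g v
    (by
      rintro (_ | j)
      · exact (PS hΦ 0).one_mem
      · have h1 : (fun n => pw T (ex (P j) n)) ∈ PS hΦ 0 := fun m =>
          Q_prod S hD1 m T hTS _ (hD j)
        exact (PS hΦ 0).inv_mem h1)
    (fun n => by
      rw [hsum, mem_KK]
      intro x y
      rw [hval, hval])
  refine ⟨E, ?_⟩
  have h1 := hE.map (toU.comp (AddMonoidHom.mk' (fun f : BB X => Additive.ofMul (f.toMul 1))
    (fun _ _ => rfl)))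
  refine Eq.trans ?_ h1
  congr 1
  funext n
  rw [hsum]
  show toU (Additive.ofMul ((prF T P χ n).toMul 1)) =
    toU (Additive.ofMul ((prF T P χ n - c₀).toMul 1))
  rw [hval]

variable [MeasurableSpace X] [BorelSpace X] {μ : Measure X} [IsProbabilityMeasure μ]
  [μ.IsMulLeftInvariant]

theorem prF_shp (P : J → Fin d → ℤ[X]) (χ : J → X →ₜ* Circle) (q r n : ℕ) :
    prF T (fun j i => shp q r (P j i)) χ n = prF T P χ (r + q * n) := by
  unfold prF
  exact Finset.sum_congr rfl fun j _ => by rw [ex_shp]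

theorem lab_shp (hT : ∀ i, IsAff (T i : X → X)) (P : J → Fin d → ℤ[X]) (χ : J → X →ₜ* Circle)
    (q r n : ℕ) : lab hT (fun j i => shp q r (P j i)) χ n = lab hT P χ (r + q * n) := by
  unfold lab
  exact Finset.sum_congr rfl fun j _ => by rw [ex_shp]

/-- **Convergence for characters, given the dichotomy.** -/
theorem conv_lab (hT : ∀ i, IsAff (T i : X → X))
    (hnil : Group.IsNilpotent (Subgroup.closure (Set.range T)))
    (P : J → Fin d → ℤ[X]) (χ : J → X →ₜ* Circle) (hdic : Dich hT P χ) :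
    ∀ᵐ x ∂μ, ∃ L : ℂ, Tendsto (fun N => bxc 1 N fun n =>
      (((prF T P χ (n 0)).toMul x : Circle) : ℂ)) atTop (𝓝 L) := by
  obtain ⟨q, hq, hdic⟩ := hdic
  have key : ∀ r : ℕ, ∀ᵐ x ∂μ, ∃ L : ℂ, Tendsto (fun N => bxc 1 N fun n =>
      (((prF T P χ (r + q * n 0)).toMul x : Circle) : ℂ)) atTop (𝓝 L) := by
    intro r
    rcases hdic r with hconst | ⟨C, δ, hC, hδ, hfew⟩
    · -- constant labels
      have hc' : ∀ n, lab hT (fun j i => shp q r (P j i)) χ n =
          lab hT (fun j i => shp q r (P j i)) χ 0 := by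
        intro n
        rw [lab_shp, lab_shp, hconst, hconst]
      obtain ⟨E, hE⟩ := phase_pd hT hnil (fun j i => shp q r (P j i)) χ hc'
      simp only [prF_shp] at hE
      obtain ⟨c, hc⟩ := phase_conv hE
      refine Eventually.of_forall fun x =>
        ⟨c * (((lab hT P χ r).toMul x : Circle) : ℂ), ?_⟩
      refine (hc.mul_const _).congr fun N => ?_
      have e1 : ∀ n : Fin 1 → ℕ, (((prF T P χ (r + q * n 0)).toMul x : Circle) : ℂ) =
          (((lab hT P χ r).toMul x : Circle) : ℂ) *
            ev (toU (Additive.ofMul ((prF T P χ (r + q * n 0)).toMul 1))) := by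
        intro n
        rw [ev_toU, ← Circle.coe_mul, prF_eq hT, hconst]
        rfl
      simp only [e1]
      rw [Pool.Agent.W761.Box.bxc_mul, mul_comm]
    · -- few coincidences
      have h1 := ae_zero (μ := μ) (k := 1) Finset.univ Finset.univ_nonempty
        (fun n : Fin 1 → ℕ => lab hT P χ (r + q * n 0))
        (fun n x => (((prF T P χ (r + q * n 0)).toMul x : Circle) : ℂ))
        (fun n => (continuous_subtype_val.comp (prF_ac hT P χ _).continuous).measurable)
        (fun n x => (Circle.norm_coe _).le)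
        (fun i j hij => by
          refine int_ac (prF_ac hT P χ _) (prF_ac hT P χ _) ?_
          rintro ⟨c, hc⟩
          apply hij
          apply Additive.toMul.injective
          refine ContinuousMonoidHom.ext fun x => ?_
          have h1 := hc x
          have h2 := hc 1
          rw [prF_eq hT, prF_eq hT P χ (r + q * j 0) x, h2, mul_left_comm c, mul_left_comm] at h1
          rw [← mul_assoc, ← mul_assoc] at h1
          have h3 := mul_right_cancel h1
          rw [mul_comm] at h3
          exact mul_right_cancel h3)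
        (fun l hl => absurd (Finset.mem_univ l) hl)
        (fun l _ => by
          rw [Subsingleton.elim l 0]
          exact fewB_one hC hδ hfew)
      filter_upwards [h1] with x hx
      exact ⟨0, hx⟩
  have key2 : ∀ᵐ x ∂μ, ∀ r : ℕ, ∃ L : ℂ, Tendsto (fun N => bxc 1 N fun n =>
      (((prF T P χ (r + q * n 0)).toMul x : Circle) : ℂ)) atTop (𝓝 L) := ae_all_iff.2 key
  filter_upwards [key2] with x hx
  refine conv_of_residues (q := q) hq (f := fun n : Fin 1 → ℕ =>
    (((prF T P χ (n 0)).toMul x : Circle) : ℂ)) fun r _ => ?_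
  exact hx (r 0)

end Pool.Agent.Helper26K1.AB
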