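import Pool.Agent.Helper26K1.AB.Str

/-!
# The dichotomy for sums of polynomial orbits of `p`-adic matrices

Adapted from `Pool/Agent/TH635/FB/Freq.lean` (integer matrices).
-/

set_option autoImplicit false

open Finset fwdDiff Polynomial Filter Topology

noncomputable section

namespace Pool.Agent.Helper26K1.AB

variable {p : ℕ} [hpf : Fact p.Prime] {d : ℕ}

/-- The matrices `A_1^(P_1j(n)) ... A_D^(P_Dj(n))`. -/
def mats {D : ℕ} {J : Type*} (A : Fin D → (Matrix (Fin d) (Fin d) ℤ_[p])ˣ) (P : J → Fin D → ℤ[X])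
    (j : J) (n : ℤ) : (Matrix (Fin d) (Fin d) ℤ_[p])ˣ :=
  (List.ofFn fun i => A i ^ ((P j i).eval n)).prod

/-- The vectors. -/
def vecf {D : ℕ} {J : Type*} [Fintype J] (A : Fin D → (Matrix (Fin d) (Fin d) ℤ_[p])ˣ)
    (P : J → Fin D → ℤ[X]) (v : J → Fin d → ℤ_[p]) (n : ℤ) : Fin d → ℤ_[p] :=
  ∑ j, Matrix.vecMul (v j) ((mats A P j n : (Matrix (Fin d) (Fin d) ℤ_[p])ˣ) :
    Matrix (Fin d) (Fin d) ℤ_[p])

theorem vec_classes {D : ℕ} {J : Type*} [Fintype J] {E : ℕ} (hE1 : 1 ≤ E) (hp : 2 * E + 1 ≤ p)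
    (A : Fin D → (Matrix (Fin d) (Fin d) ℤ_[p])ˣ)
    (P : J → Fin D → ℤ[X]) (hdeg : ∀ j i, (P j i).natDegree ≤ E) (v : J → Fin d → ℤ_[p]) :
    ∃ q : ℕ, 1 ≤ q ∧ ∀ r : ℕ,
      (∀ n : ℕ, vecf A P v ((r + q * n : ℕ) : ℤ) = vecf A P v (r : ℤ)) ∨
      ∃ K : ℕ, ∀ (w : Fin d → ℤ_[p]) (s : Finset ℕ),
        (∀ n ∈ s, vecf A P v ((r + q * n : ℕ) : ℤ) = w) → s.card ≤ K := by
  classical
  have hpp := hpf.out
  have : NeZero p := ⟨hpp.ne_zero⟩
  have hp0 : (0 : ℝ) < p := by exact_mod_cast hpp.pos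
  have hp1 : (1 : ℝ) < p := by exact_mod_cast hpp.one_lt
  set ρ : ℝ := ((p : ℝ)⁻¹) ^ ((E : ℝ)⁻¹) with hρd
  have hρ0 : 0 < ρ := Real.rpow_pos_of_pos (by positivity) _
  have hρ1 : ρ < 1 := Real.rpow_lt_one (by positivity) (inv_lt_one_of_one_lt₀ hp1) (by positivity)
  have hρ : ρ ^ E = (p : ℝ)⁻¹ := by
    rw [hρd, ← Real.rpow_natCast, ← Real.rpow_mul (by positivity),
      inv_mul_cancel₀ (by exact_mod_cast (by omega : E ≠ 0)), Real.rpow_one]
  let G := (Matrix (Fin d) (Fin d) (ZMod p))ˣ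
  set q := Fintype.card G with hq
  have hq1 : 1 ≤ q := Fintype.card_pos
  have hred : ∀ V : (Matrix (Fin d) (Fin d) ℤ_[p])ˣ, red p d (V ^ (q : ℤ)) = 1 := by
    intro V
    rw [zpow_natCast, map_pow]
    exact pow_card_eq_one
  refine ⟨q, hq1, fun r => ?_⟩
  have hPA : ∀ j, PA p ρ (fun n => ((mats A P j ((r : ℤ) + q * n) :
      (Matrix (Fin d) (Fin d) ℤ_[p])ˣ) : Matrix (Fin d) (Fin d) ℤ_[p])) := by
    intro j
    have h1 := PA.list (p := p) hρ0.le
      (List.ofFn fun i => fun n : ℤ => A i ^ ((P j i).eval ((r : ℤ) + q * n))) (by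
        intro F hF
        rw [List.mem_ofFn] at hF
        obtain ⟨i, rfl⟩ := hF
        exact PA.poly hρ0.le hρ1.le hρ (by exact_mod_cast (by omega : q ≠ 0)) (hred (A i))
          (hdeg j i) r)
    refine (iff_of_eq ?_).mp h1
    congr 1
    funext n
    unfold mats
    rw [List.map_ofFn]
    rfl
  -- scalar components
  have hcomp : ∀ a : Fin d, ∀ k,
      ‖(fwdDiff 1)^[k] (fun n : ℤ => vecf A P v ((r : ℤ) + q * n) a) 0‖ ≤ ρ ^ k := by
    intro a k
    have e1 : (fun n : ℤ => vecf A P v ((r : ℤ) + q * n) a) =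
        ∑ j, ∑ b, (v j b) • (fun n : ℤ => ((mats A P j ((r : ℤ) + q * n) :
          (Matrix (Fin d) (Fin d) ℤ_[p])ˣ) : Matrix (Fin d) (Fin d) ℤ_[p]) b a) := by
      funext n
      simp only [vecf, Finset.sum_apply, Matrix.vecMul, dotProduct,
        Pi.smul_apply, smul_eq_mul]
    rw [e1, fwdDiff_iter_finsetSum, Finset.sum_apply]
    apply norm_sum_le' _ _ (by positivity)
    intro j _
    rw [fwdDiff_iter_finsetSum, Finset.sum_apply]
    apply norm_sum_le' _ _ (by positivity)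
    intro b _
    rw [fwdDiff_iter_const_smul, Pi.smul_apply, smul_eq_mul, norm_mul]
    calc ‖v j b‖ * _ ≤ 1 * ρ ^ k := by
          apply mul_le_mul (PadicInt.norm_le_one _) _ (norm_nonneg _) zero_le_one
          rw [iter_entry]
          exact hPA j k 0 b a
      _ = ρ ^ k := one_mul _
  by_cases hall : ∀ a : Fin d, ∀ n : ℕ, vecf A P v ((r : ℤ) + q * (n : ℤ)) a =
      vecf A P v ((r : ℤ) + q * (0 : ℤ)) a
  · left
    intro n
    funext a
    have := hall a n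
    push_cast
    rw [mul_zero, add_zero] at this
    exact this
  · right
    push Not at hall
    obtain ⟨a, n₀, hn₀⟩ := hall
    rcases strass' hρ0 hρ1 hρ hp (fun n : ℤ => vecf A P v ((r : ℤ) + q * n) a) (hcomp a) with
      h | ⟨K, hK⟩
    · exact absurd (h n₀) hn₀
    · refine ⟨K, fun w s hs => hK (w a) s fun n hn => ?_⟩
      have := congrFun (hs n hn) a
      push_cast at this
      exact this

end Pool.Agent.Helper26K1.AB
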