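import Pool.Agent.Helper26K1.AB.Gen
import Pool.Agent.Helper26K1.AB.Cls

/-!
# Nilpotent groups of affine maps: from the structure of the dual to the convergence for characters
-/

set_option autoImplicit false
set_option linter.unusedSectionVars false

open Polynomial Filter Topology MeasureTheory

noncomputable section

namespace Pool.Agent.Helper26K1.AB

open Pool.Agent.TH784.AA (IsAff BB pbk)
open Pool.Agent.Helper26K1.AP (pw ex pw_map AffG linM linM_apply)

universe u

variable {X : Type u} [CommGroup X] [TopologicalSpace X] [IsTopologicalGroup X] [CompactSpace X]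
  [T2Space X] {d : ℕ} {T : Fin d → Equiv.Perm X}

/-- the action of the group of affine bijections on the characters -/
def th (X : Type u) [CommGroup X] [TopologicalSpace X] [IsTopologicalGroup X] [CompactSpace X]
    [T2Space X] : AffG X →* (AddMonoid.End (Additive (X →ₜ* Circle)))ˣ :=
  MonoidHom.toHomUnits
    { toFun := fun g => pb (lh g⁻¹)
      map_one' := by
        rw [inv_one, pb_one]
        rfl
      map_mul' := fun g h => by
        rw [mul_inv_rev, pb_mul]
        rfl }

/-- `N` is invariant under the linear parts of the elements of the group -/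
def Inv (T : Fin d → Equiv.Perm X) (N : Subgroup (X →ₜ* Circle)) : Prop :=
  ∀ V ∈ Subgroup.closure (Set.range T), ∀ χ ∈ N, ∃ ψ ∈ N, ∃ c : Circle, ∀ x, χ (V x) = c * ψ x

/-- the linear part of `V` fixes `χ` modulo `N` -/
def FixM (N : Subgroup (X →ₜ* Circle)) (V : Equiv.Perm X) (χ : X →ₜ* Circle) : Prop :=
  ∃ ψ ∈ N, ∃ c : Circle, ∀ x, χ (V x) = c * ψ x * χ x

/-- the quotient by `N` has finite rank and no torsion -/
def FinR (N : Subgroup (X →ₜ* Circle)) : Prop :=
  ∃ (r : ℕ) (φ : Additive (X →ₜ* Circle) →+ (Fin r → ℚ)), ∀ χ, φ (Additive.ofMul χ) = 0 ↔ χ ∈ N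

/-- on the quotient by `N`, the linear parts are trivial or have no periodic points -/
def TrE (T : Fin d → Equiv.Perm X) (N : Subgroup (X →ₜ* Circle)) : Prop :=
  ∀ V ∈ Subgroup.closure (Set.range T), (∀ χ, FixM N V χ) ∨
    ∀ k : ℕ, 1 ≤ k → ∀ χ, FixM N (V ^ k) χ → χ ∈ N

theorem lh_val (g : AffG X) (χ : X →ₜ* Circle) (x : X) :
    χ (g.1 x) = χ (lh g x) * χ (g.1 1) := by
  rw [lh_apply, linM_apply, ← map_mul, inv_mul_cancel_right]

theorem hle (hT : ∀ i, IsAff (T i : X → X)) : Subgroup.closure (Set.range T) ≤ AffG X := by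
  rw [Subgroup.closure_le]
  rintro _ ⟨i, rfl⟩
  exact hT i

/-- the action of the group generated by `T` -/
def actB (hT : ∀ i, IsAff (T i : X → X)) : Subgroup.closure (Set.range T) →*
    (AddMonoid.End (Additive (X →ₜ* Circle)))ˣ :=
  (th X).comp (Subgroup.inclusion (hle hT))

theorem actB_apply (hT : ∀ i, IsAff (T i : X → X)) (g : Subgroup.closure (Set.range T))
    (χ : Additive (X →ₜ* Circle)) :
    ((actB hT g : (AddMonoid.End (Additive (X →ₜ* Circle)))ˣ) :
      AddMonoid.End (Additive (X →ₜ* Circle))) χ =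
      pb (lh (Subgroup.inclusion (hle hT) g⁻¹)) χ := rfl

theorem lab_fl (hT : ∀ i, IsAff (T i : X → X)) {J : Type} [Fintype J] (P : J → Fin d → ℤ[X])
    (χ : J → X →ₜ* Circle) (n : ℕ) : lab hT P χ n =
      fl (actB hT) (fun i => (⟨T i, Subgroup.subset_closure ⟨i, rfl⟩⟩ :
        Subgroup.closure (Set.range T))) P (fun j => Additive.ofMul (χ j)) n := by
  unfold lab fl
  refine Finset.sum_congr rfl fun j _ => ?_
  have e1 : Subgroup.inclusion (hle hT) (pw (fun i => (⟨T i, Subgroup.subset_closure ⟨i, rfl⟩⟩ :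
      Subgroup.closure (Set.range T))) (ex (P j) n)) =
      pw (fun i => (⟨T i, hT i⟩ : AffG X)) (ex (P j) n) := by
    rw [pw_map]
    rfl
  rw [actB_apply, inv_inv, e1]
  exact lp_eq hT _ (Additive.ofMul (χ j))

/-- **The dichotomy for the labels.** -/
theorem dich_X (hT : ∀ i, IsAff (T i : X → X))
    (hnil : Group.IsNilpotent (Subgroup.closure (Set.range T)))
    {k : ℕ} (N : Fin k → Subgroup (X →ₜ* Circle)) (hN : ⨅ i, N i = ⊥) (hI : ∀ i, Inv T (N i))
    (h : ∀ i, FinR (N i) ∨ TrE T (N i))
    {J : Type} [Fintype J] (P : J → Fin d → ℤ[X]) (χ : J → X →ₜ* Circle) : Dich hT P χ := by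
  have hmain : DichG (fl (actB hT) (fun i => (⟨T i, Subgroup.subset_closure ⟨i, rfl⟩⟩ :
      Subgroup.closure (Set.range T))) P (fun j => Additive.ofMul (χ j))) := by
    refine dichG_main hnil (actB hT) (fun i => Subgroup.toAddSubgroup (N i)) ?_ ?_ ?_ _ _ _
    · intro x hx
      have h1 : x.toMul ∈ ⨅ i, N i := Subgroup.mem_iInf.2 hx
      rw [hN, Subgroup.mem_bot] at h1
      exact h1
    · intro i g χ hχ
      obtain ⟨ψ, hψ, c, hc⟩ := hI i (g⁻¹ : Subgroup.closure (Set.range T)).1
        (g⁻¹ : Subgroup.closure (Set.range T)).2 χ.toMul hχ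
      rw [actB_apply]
      have e : pb (lh (Subgroup.inclusion (hle hT) g⁻¹)) χ = Additive.ofMul ψ := by
        apply Additive.toMul.injective
        refine ContinuousMonoidHom.ext fun x => ?_
        have h1 := lh_val (Subgroup.inclusion (hle hT) g⁻¹) χ.toMul x
        have h2 := hc x
        have h3 := hc 1
        rw [map_one ψ, mul_one] at h3
        have h4 : χ.toMul (lh (Subgroup.inclusion (hle hT) g⁻¹) x) * c = c * ψ x := by
          rw [← h2, ← h3]
          exact h1.symm
        rw [mul_comm c] at h4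
        exact mul_right_cancel h4
      rw [e]
      exact hψ
    · intro i
      rcases h i with ⟨r, φ, hφ⟩ | h'
      · exact Or.inl ⟨r, φ, fun x => hφ x.toMul⟩
      right
      intro g
      -- translation
      have key : ∀ (g : Subgroup.closure (Set.range T)) (χ : Additive (X →ₜ* Circle)),
          ((actB hT g : (AddMonoid.End (Additive (X →ₜ* Circle)))ˣ) :
            AddMonoid.End (Additive (X →ₜ* Circle))) χ - χ ∈ Subgroup.toAddSubgroup (N i) ↔
          FixM (N i) (g⁻¹ : Subgroup.closure (Set.range T)).1 χ.toMul := by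
        intro g χ
        rw [actB_apply]
        constructor
        · intro hm
          refine ⟨_, hm, χ.toMul ((g⁻¹ : Subgroup.closure (Set.range T)).1 1), fun x => ?_⟩
          have h1 := lh_val (Subgroup.inclusion (hle hT) g⁻¹) χ.toMul x
          refine h1.trans ?_
          show χ.toMul (lh (Subgroup.inclusion (hle hT) g⁻¹) x) *
            χ.toMul ((g⁻¹ : Subgroup.closure (Set.range T)).1 1) =
            χ.toMul ((g⁻¹ : Subgroup.closure (Set.range T)).1 1) *
              (χ.toMul (lh (Subgroup.inclusion (hle hT) g⁻¹) x) / χ.toMul x) * χ.toMul x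
          rw [mul_assoc, div_mul_cancel, mul_comm]
        · rintro ⟨ψ, hψ, c, hc⟩
          have e : pb (lh (Subgroup.inclusion (hle hT) g⁻¹)) χ - χ = Additive.ofMul ψ := by
            rw [sub_eq_iff_eq_add]
            apply Additive.toMul.injective
            refine ContinuousMonoidHom.ext fun x => ?_
            show χ.toMul (lh (Subgroup.inclusion (hle hT) g⁻¹) x) = ψ x * χ.toMul x
            have h1 := lh_val (Subgroup.inclusion (hle hT) g⁻¹) χ.toMul x
            have h2 := hc x
            have h3 := hc 1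
            rw [map_one ψ, map_one χ.toMul, mul_one, mul_one] at h3
            have h4 : χ.toMul (lh (Subgroup.inclusion (hle hT) g⁻¹) x) * c = c * ψ x * χ.toMul x := by
              rw [← h2, ← h3]
              exact h1.symm
            rw [mul_comm c, mul_right_comm] at h4
            exact mul_right_cancel h4
          rw [e]
          exact hψ
      rcases h' (g⁻¹ : Subgroup.closure (Set.range T)).1
        (g⁻¹ : Subgroup.closure (Set.range T)).2 with h'' | h''
      · left
        intro χ
        exact (key g χ).2 (h'' _)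
      · right
        intro k hk χ hχ
        have h1 := (key (g ^ k) χ).1 hχ
        have e : ((g ^ k)⁻¹ : Subgroup.closure (Set.range T)).1 =
            (g⁻¹ : Subgroup.closure (Set.range T)).1 ^ k := by
          rw [← inv_pow]
          rfl
        rw [e] at h1
        exact h'' k hk _ h1
  obtain ⟨q, hq, hd⟩ := hmain
  refine ⟨q, hq, fun r => ?_⟩
  simp only [lab_fl]
  exact hd r

variable [MeasurableSpace X] [BorelSpace X] {μ : Measure X} [μ.IsHaarMeasure]
  [IsProbabilityMeasure μ]

theorem prF_prod {J : Type} [Fintype J] (P : J → Fin d → ℤ[X]) (χ : J → X →ₜ* Circle) (n : ℕ)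
    (x : X) : (((prF T P χ n).toMul x : Circle) : ℂ) =
      ∏ j, (χ j ((pw T (ex (P j) n) : Equiv.Perm X) x) : ℂ) := by
  classical
  unfold prF
  rw [sum_apply]
  have key : ∀ s : Finset J, (((∑ j ∈ s, Additive.ofMul
      ((pbk (pw T (ex (P j) n) : Equiv.Perm X) (Additive.ofMul fun x => χ j x)).toMul x)).toMul :
        Circle) : ℂ) = ∏ j ∈ s, (χ j ((pw T (ex (P j) n) : Equiv.Perm X) x) : ℂ) := by
    intro s
    induction s using Finset.induction_on with
    | empty =>
      rw [Finset.sum_empty, Finset.prod_empty]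
      exact Circle.coe_one
    | insert j s hj ih =>
      rw [Finset.sum_insert hj, Finset.prod_insert hj, ← ih]
      exact Circle.coe_mul _ _
  exact key Finset.univ

theorem side_of_dich (hT : ∀ i, IsAff (T i : X → X))
    (hnil : Group.IsNilpotent (Subgroup.closure (Set.range T)))
    (hdic : ∀ (m : ℕ) (P : Fin m → Fin d → ℤ[X]) (χ : Fin m → X →ₜ* Circle), Dich hT P χ) :
    SideAll μ T := by
  refine ⟨hT, fun m P χ => ?_⟩
  have h1 := conv_lab (μ := μ) hT hnil P χ (hdic m P χ)
  filter_upwards [h1] with x hx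
  obtain ⟨L, hL⟩ := hx
  refine ⟨L, hL.congr fun N => ?_⟩
  congr 1
  funext n
  exact prF_prod P χ (n 0) x

end Pool.Agent.Helper26K1.AB
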