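import Pool.Agent.Helper26K1.AB.Conv
import Pool.Agent.Helper26K1.AB.Dich

/-!
# The dichotomy for labels when the dual group embeds in `ℚ ^ r`
-/

set_option autoImplicit false
set_option linter.unusedSectionVars false

open Polynomial Filter Topology MeasureTheory

noncomputable section

namespace Pool.Agent.Helper26K1.AB

open Pool.Agent.TH784.AA (IsAff isAff_prod)
open Pool.Agent.Helper26K1.AP (pw ex PD zc pw_map AffG linM linM_apply pw_coe)

section coord

variable {Y : Type*} [AddCommGroup Y]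

/-- coordinates with the unit vectors among the values -/
theorem exists_coord {r : ℕ} (φ : Y →+ (Fin r → ℚ)) (hφ : Function.Injective φ) :
    ∃ (s : ℕ) (ψ : Y →+ (Fin s → ℚ)) (y : Fin s → Y), Function.Injective ψ ∧
      ∀ k, ψ (y k) = Pi.single k 1 := by
  classical
  obtain ⟨b, hb1, hb2, hb3⟩ := exists_linearIndependent ℚ (Set.range φ)
  have hfin : b.Finite := hb3.setFinite
  have : Fintype b := hfin.fintype
  let e : b ≃ Fin (Fintype.card b) := Fintype.equivFin b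
  let B : Module.Basis b ℚ (Submodule.span ℚ (Set.range ((↑) : b → (Fin r → ℚ)))) :=
    Module.Basis.span hb3
  have hmem : ∀ x : Y, φ x ∈ Submodule.span ℚ (Set.range ((↑) : b → (Fin r → ℚ))) := by
    intro x
    rw [Subtype.range_coe, hb2]
    exact Submodule.subset_span ⟨x, rfl⟩
  let ψ : Y →+ (Fin (Fintype.card b) → ℚ) :=
    AddMonoidHom.mk' (fun x k => B.repr ⟨φ x, hmem x⟩ (e.symm k)) (fun x x' => by
      funext k
      have h1 : (⟨φ (x + x'), hmem (x + x')⟩ :
          Submodule.span ℚ (Set.range ((↑) : b → (Fin r → ℚ)))) =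
          ⟨φ x, hmem x⟩ + ⟨φ x', hmem x'⟩ := by
        apply Subtype.ext
        exact map_add φ x x'
      show B.repr ⟨φ (x + x'), hmem (x + x')⟩ (e.symm k) = _
      rw [h1, map_add]
      rfl)
  have hpre : ∀ k : Fin (Fintype.card b), ∃ y, φ y = (e.symm k : b) := fun k =>
    hb1 (e.symm k).2
  choose y hy using hpre
  refine ⟨Fintype.card b, ψ, y, ?_, ?_⟩
  · intro x x' h
    apply hφ
    have h1 : B.repr ⟨φ x, hmem x⟩ = B.repr ⟨φ x', hmem x'⟩ := by
      ext k
      have := congrFun h (e k)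
      show B.repr ⟨φ x, hmem x⟩ k = B.repr ⟨φ x', hmem x'⟩ k
      have h2 : B.repr ⟨φ x, hmem x⟩ (e.symm (e k)) = B.repr ⟨φ x', hmem x'⟩ (e.symm (e k)) := this
      rwa [Equiv.symm_apply_apply] at h2
    exact congrArg Subtype.val (B.repr.injective h1)
  · intro k
    funext l
    show B.repr ⟨φ (y k), hmem (y k)⟩ (e.symm l) = _
    have h1 : (⟨φ (y k), hmem (y k)⟩ :
        Submodule.span ℚ (Set.range ((↑) : b → (Fin r → ℚ)))) = B (e.symm k) := by
      apply Subtype.ext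
      rw [Module.Basis.span_apply]
      exact hy k
    rw [h1, Module.Basis.repr_self, Finsupp.single_apply, Pi.single_apply]
    by_cases h : l = k
    · rw [if_pos h, if_pos (by rw [h])]
    · rw [if_neg h, if_neg (fun h' => h (e.symm.injective h').symm)]

variable {s : ℕ} {ψ : Y →+ (Fin s → ℚ)} {y : Fin s → Y}

/-- the matrix of an endomorphism -/
def mat (ψ : Y →+ (Fin s → ℚ)) (y : Fin s → Y) (a : Y →+ Y) : Matrix (Fin s) (Fin s) ℚ :=
  fun k => ψ (a (y k))

theorem mat_spec (hψ : Function.Injective ψ) (hy : ∀ k, ψ (y k) = Pi.single k 1) (a : Y →+ Y)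
    (x : Y) : ψ (a x) = Matrix.vecMul (ψ x) (mat ψ y a) := by
  classical
  -- a common denominator
  obtain ⟨N, hN, n, hn⟩ : ∃ N : ℕ, N ≠ 0 ∧ ∃ n : Fin s → ℤ, ∀ k, (N : ℚ) * ψ x k = n k := by
    refine ⟨∏ k, (ψ x k).den, Finset.prod_ne_zero_iff.2 fun k _ => (ψ x k).den_nz,
      fun k => (∏ l ∈ Finset.univ.erase k, ((ψ x l).den : ℤ)) * (ψ x k).num, fun k => ?_⟩
    rw [← Finset.mul_prod_erase _ _ (Finset.mem_univ k)]
    push_cast
    have h1 := Rat.den_mul_eq_num (ψ x k)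
    calc ((ψ x k).den : ℚ) * (∏ l ∈ Finset.univ.erase k, ((ψ x l).den : ℚ)) * ψ x k =
        (∏ l ∈ Finset.univ.erase k, ((ψ x l).den : ℚ)) * ((ψ x k).den * ψ x k) := by ring
      _ = _ := by rw [h1]
  have h1 : N • x = ∑ k, n k • y k := by
    apply hψ
    rw [map_nsmul, map_sum]
    funext l
    rw [Pi.smul_apply, Finset.sum_apply, nsmul_eq_mul, hn, Finset.sum_eq_single l]
    · rw [map_zsmul, Pi.smul_apply, hy, Pi.single_eq_same, zsmul_eq_mul, mul_one]
    · intro k _ hk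
      rw [map_zsmul, Pi.smul_apply, hy, Pi.single_eq_of_ne hk.symm, smul_zero]
    · intro h
      exact absurd (Finset.mem_univ l) h
  have hN' : (N : ℚ) ≠ 0 := by exact_mod_cast hN
  have h2 : (N : ℚ) • ψ (a x) = (N : ℚ) • Matrix.vecMul (ψ x) (mat ψ y a) := by
    have h3 : (N : ℚ) • ψ (a x) = ψ (a (N • x)) := by
      rw [map_nsmul, map_nsmul, Nat.cast_smul_eq_nsmul]
    rw [h3, h1, map_sum, map_sum]
    funext l
    rw [Finset.sum_apply, Pi.smul_apply, smul_eq_mul, Matrix.vecMul, dotProduct, Finset.mul_sum]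
    refine Finset.sum_congr rfl fun k _ => ?_
    rw [map_zsmul, map_zsmul, Pi.smul_apply, zsmul_eq_mul, ← mul_assoc, hn]
    rfl
  exact smul_right_injective _ hN' h2

theorem mat_comp (hψ : Function.Injective ψ) (hy : ∀ k, ψ (y k) = Pi.single k 1)
    (a b : Y →+ Y) : mat ψ y (a.comp b) = mat ψ y b * mat ψ y a := by
  funext k
  show ψ (a (b (y k))) = _
  rw [mat_spec hψ hy]
  rfl

theorem mat_id (hy : ∀ k, ψ (y k) = Pi.single k 1) : mat ψ y (AddMonoidHom.id Y) = 1 := by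
  classical
  funext k l
  show ψ (y k) l = _
  rw [hy, Pi.single_apply, Matrix.one_apply]
  simp only [eq_comm]

end coord

section lift

variable {p : ℕ} [hpf : Fact p.Prime] {s : ℕ}

/-- from rational to `p`-adic matrices -/
def qp (p : ℕ) [Fact p.Prime] (s : ℕ) :
    (Matrix (Fin s) (Fin s) ℚ)ˣ →* (Matrix (Fin s) (Fin s) ℚ_[p])ˣ :=
  Units.map ((Rat.castHom ℚ_[p]).mapMatrix).toMonoidHom

/-- from `p`-adic integer to `p`-adic matrices -/
def zp (p : ℕ) [Fact p.Prime] (s : ℕ) :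
    (Matrix (Fin s) (Fin s) ℤ_[p])ˣ →* (Matrix (Fin s) (Fin s) ℚ_[p])ˣ :=
  Units.map ((PadicInt.Coe.ringHom (p := p)).mapMatrix).toMonoidHom

theorem qp_apply (g : (Matrix (Fin s) (Fin s) ℚ)ˣ) (a b : Fin s) :
    (qp p s g : Matrix (Fin s) (Fin s) ℚ_[p]) a b = (((g : Matrix (Fin s) (Fin s) ℚ) a b : ℚ) :
      ℚ_[p]) := rfl

theorem zp_apply (g : (Matrix (Fin s) (Fin s) ℤ_[p])ˣ) (a b : Fin s) :
    (zp p s g : Matrix (Fin s) (Fin s) ℚ_[p]) a b =
      (((g : Matrix (Fin s) (Fin s) ℤ_[p]) a b : ℤ_[p]) : ℚ_[p]) := rfl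

/-- `p`-integral matrices lift -/
theorem exists_lift (g : (Matrix (Fin s) (Fin s) ℚ)ˣ)
    (h1 : ∀ a b, ‖(((g : Matrix (Fin s) (Fin s) ℚ) a b : ℚ) : ℚ_[p])‖ ≤ 1)
    (h2 : ∀ a b, ‖((((g⁻¹ : (Matrix (Fin s) (Fin s) ℚ)ˣ) : Matrix (Fin s) (Fin s) ℚ) a b : ℚ) :
      ℚ_[p])‖ ≤ 1) : ∃ U : (Matrix (Fin s) (Fin s) ℤ_[p])ˣ, zp p s U = qp p s g := by
  let A : Matrix (Fin s) (Fin s) ℤ_[p] := fun a b => ⟨_, h1 a b⟩
  let B : Matrix (Fin s) (Fin s) ℤ_[p] := fun a b => ⟨_, h2 a b⟩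
  have hinj : Function.Injective ((PadicInt.Coe.ringHom (p := p)).mapMatrix :
      Matrix (Fin s) (Fin s) ℤ_[p] → Matrix (Fin s) (Fin s) ℚ_[p]) := by
    intro M N h
    funext a b
    exact Subtype.ext (congrFun (congrFun h a) b)
  have eA : (PadicInt.Coe.ringHom (p := p)).mapMatrix A =
      (Rat.castHom ℚ_[p]).mapMatrix (g : Matrix (Fin s) (Fin s) ℚ) := rfl
  have eB : (PadicInt.Coe.ringHom (p := p)).mapMatrix B =
      (Rat.castHom ℚ_[p]).mapMatrix ((g⁻¹ : (Matrix (Fin s) (Fin s) ℚ)ˣ) :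
        Matrix (Fin s) (Fin s) ℚ) := rfl
  have hAB : A * B = 1 := by
    apply hinj
    rw [map_mul, eA, eB, ← map_mul, Units.mul_inv, map_one, map_one]
  have hBA : B * A = 1 := by
    apply hinj
    rw [map_mul, eA, eB, ← map_mul, Units.inv_mul, map_one, map_one]
  refine ⟨⟨A, B, hAB, hBA⟩, ?_⟩
  apply Units.ext
  rfl

/-- a prime for finitely many rational numbers -/
theorem exists_prime {ι : Type*} [Finite ι] (x : ι → ℚ) (B : ℕ) :
    ∃ p : ℕ, ∃ _ : Fact p.Prime, B ≤ p ∧ ∀ i, ‖((x i : ℚ) : ℚ_[p])‖ ≤ 1 := by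
  classical
  have : Fintype ι := Fintype.ofFinite ι
  obtain ⟨p, hp, hpp⟩ := Nat.exists_infinite_primes (B + ∑ i, (x i).den + 1)
  have hf : Fact p.Prime := ⟨hpp⟩
  refine ⟨p, hf, by omega, fun i => ?_⟩
  apply Padic.norm_rat_le_one
  intro hdvd
  have h1 := Nat.le_of_dvd (x i).den_pos hdvd
  have h2 : (x i).den ≤ ∑ i, (x i).den :=
    Finset.single_le_sum (f := fun i => (x i).den) (fun _ _ => Nat.zero_le _) (Finset.mem_univ i)
  omega

end lift

section main

universe u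

variable {X : Type u} [CommGroup X] [TopologicalSpace X] [IsTopologicalGroup X] [CompactSpace X]
  [T2Space X] {d : ℕ} {T : Fin d → Equiv.Perm X}

/-- pullback of characters -/
def pb (α : X →ₜ* X) : Additive (X →ₜ* Circle) →+ Additive (X →ₜ* Circle) :=
  AddMonoidHom.mk' (fun χ => Additive.ofMul (χ.toMul.comp α)) (fun _ _ => rfl)

/-- the continuous linear part -/
def lh (g : AffG X) : X →ₜ* X := (show IsAff (g.1 : X → X) from g.2).choose

theorem lh_apply (g : AffG X) (x : X) : lh g x = linM g x := by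
  obtain ⟨c, h⟩ := (show IsAff (g.1 : X → X) from g.2).choose_spec
  rw [linM_apply]
  have h1 : g.1 1 = c := by
    rw [h]
    show lh g 1 * c = c
    rw [map_one, one_mul]
  have h2 : g.1 x = lh g x * c := h x
  rw [h1, h2, mul_inv_cancel_right]

theorem pb_mul (g h : AffG X) : pb (lh (g * h)) = (pb (lh h)).comp (pb (lh g)) := by
  refine AddMonoidHom.ext fun χ => ?_
  apply Additive.toMul.injective
  refine ContinuousMonoidHom.ext fun x => ?_
  show χ.toMul (lh (g * h) x) = χ.toMul (lh g (lh h x))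
  rw [lh_apply, lh_apply, lh_apply, map_mul]
  rfl

theorem pb_one : pb (lh (1 : AffG X)) = AddMonoidHom.id _ := by
  refine AddMonoidHom.ext fun χ => ?_
  apply Additive.toMul.injective
  refine ContinuousMonoidHom.ext fun x => ?_
  show χ.toMul (lh (1 : AffG X) x) = χ.toMul x
  rw [lh_apply, map_one]
  rfl

variable {s : ℕ} {ψ : Additive (X →ₜ* Circle) →+ (Fin s → ℚ)}
  {y : Fin s → Additive (X →ₜ* Circle)}

/-- the representation by rational matrices -/
def gl (hψ : Function.Injective ψ) (hy : ∀ k, ψ (y k) = Pi.single k 1) :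
    AffG X →* (Matrix (Fin s) (Fin s) ℚ)ˣ :=
  MonoidHom.toHomUnits
    { toFun := fun g => mat ψ y (pb (lh g))
      map_one' := by rw [pb_one, mat_id hy]
      map_mul' := fun g h => by rw [pb_mul, mat_comp hψ hy] }

theorem gl_apply (hψ : Function.Injective ψ) (hy : ∀ k, ψ (y k) = Pi.single k 1) (g : AffG X) :
    (gl hψ hy g : Matrix (Fin s) (Fin s) ℚ) = mat ψ y (pb (lh g)) := rfl

theorem lp_eq (hT : ∀ i, IsAff (T i : X → X)) (a : Fin d → ℤ) (χ : Additive (X →ₜ* Circle)) :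
    Additive.ofMul (χ.toMul.comp (lp hT a)) =
      pb (lh (pw (fun i => (⟨T i, hT i⟩ : AffG X)) a)) χ := by
  apply Additive.toMul.injective
  refine ContinuousMonoidHom.ext fun x => ?_
  show χ.toMul (lp hT a x) = χ.toMul (lh _ x)
  rw [lh_apply, linM_apply, pw_coe hT, lp_spec hT, mul_inv_cancel_right]

theorem dich_sol {r : ℕ} (φ : Additive (X →ₜ* Circle) →+ (Fin r → ℚ)) (hφ : Function.Injective φ)
    (hT : ∀ i, IsAff (T i : X → X)) {J : Type} [Fintype J] (P : J → Fin d → ℤ[X])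
    (χ : J → X →ₜ* Circle) : Dich hT P χ := by
  classical
  obtain ⟨s, ψ, y, hψ, hy⟩ := exists_coord φ hφ
  set T' : Fin d → AffG X := fun i => ⟨T i, hT i⟩ with hT'
  set E : ℕ := 1 + ∑ j, ∑ i, (P j i).natDegree with hE
  have hdeg : ∀ j i, (P j i).natDegree ≤ E := by
    intro j i
    have h1 : (P j i).natDegree ≤ ∑ i, (P j i).natDegree :=
      Finset.single_le_sum (f := fun i => (P j i).natDegree) (fun _ _ => Nat.zero_le _)
        (Finset.mem_univ i)
    have h2 : ∑ i, (P j i).natDegree ≤ ∑ j, ∑ i, (P j i).natDegree :=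
      Finset.single_le_sum (f := fun j => ∑ i, (P j i).natDegree) (fun _ _ => Nat.zero_le _)
        (Finset.mem_univ j)
    omega
  -- the prime
  obtain ⟨p, hpf, hpE, hp⟩ := exists_prime (ι := ((Fin d × Fin s × Fin s) ⊕
    (Fin d × Fin s × Fin s)) ⊕ (J × Fin s))
    (Sum.elim (Sum.elim (fun t => (gl hψ hy (T' t.1) : Matrix (Fin s) (Fin s) ℚ) t.2.1 t.2.2)
      (fun t => (((gl hψ hy (T' t.1))⁻¹ : (Matrix (Fin s) (Fin s) ℚ)ˣ) :
        Matrix (Fin s) (Fin s) ℚ) t.2.1 t.2.2))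
      (fun t => ψ (Additive.ofMul (χ t.1)) t.2)) (2 * E + 1)
  choose U hU using fun i => exists_lift (p := p) (gl hψ hy (T' i))
    (fun a b => hp (Sum.inl (Sum.inl (i, a, b)))) (fun a b => hp (Sum.inl (Sum.inr (i, a, b))))
  let v : J → Fin s → ℤ_[p] := fun j k => ⟨_, hp (Sum.inr (j, k))⟩
  have hv : ∀ j k, ((v j k : ℤ_[p]) : ℚ_[p]) = ((ψ (Additive.ofMul (χ j)) k : ℚ) : ℚ_[p]) :=
    fun j k => rfl
  -- the labels
  have hlab : ∀ (n : ℕ) (l : Fin s), ((vecf U P v (n : ℤ) l : ℤ_[p]) : ℚ_[p]) =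
      ((ψ (lab hT P χ n) l : ℚ) : ℚ_[p]) := by
    intro n l
    have h1 : ∀ j, (zp p s (mats U P j (n : ℤ)) : Matrix (Fin s) (Fin s) ℚ_[p]) =
        (qp p s (gl hψ hy (pw T' (ex (P j) n))) : Matrix (Fin s) (Fin s) ℚ_[p]) := by
      intro j
      congr 1
      have e1 : mats U P j (n : ℤ) = pw U (ex (P j) n) := rfl
      rw [e1, pw_map, pw_map, pw_map]
      congr 1
      funext i
      exact hU i
    have h2 : ψ (lab hT P χ n) l = ∑ j, ∑ k, ψ (Additive.ofMul (χ j)) k *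
        (gl hψ hy (pw T' (ex (P j) n)) : Matrix (Fin s) (Fin s) ℚ) k l := by
      unfold lab
      rw [map_sum, Finset.sum_apply]
      refine Finset.sum_congr rfl fun j _ => ?_
      have e2 : Additive.ofMul ((χ j).comp (lp hT (ex (P j) n))) =
          pb (lh (pw T' (ex (P j) n))) (Additive.ofMul (χ j)) := lp_eq hT _ (Additive.ofMul (χ j))
      rw [e2, mat_spec hψ hy]
      rfl
    have h3 : ((vecf U P v (n : ℤ) l : ℤ_[p]) : ℚ_[p]) = ∑ j, ∑ k, ((v j k : ℤ_[p]) : ℚ_[p]) *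
        (zp p s (mats U P j (n : ℤ)) : Matrix (Fin s) (Fin s) ℚ_[p]) k l := by
      unfold vecf
      rw [Finset.sum_apply]
      have e3 := map_sum (PadicInt.Coe.ringHom (p := p)) (fun j => Matrix.vecMul (v j)
        ((mats U P j (n : ℤ) : (Matrix (Fin s) (Fin s) ℤ_[p])ˣ) :
          Matrix (Fin s) (Fin s) ℤ_[p]) l) Finset.univ
      refine e3.trans (Finset.sum_congr rfl fun j _ => ?_)
      have e4 := map_sum (PadicInt.Coe.ringHom (p := p)) (fun k => v j k *
        ((mats U P j (n : ℤ) : (Matrix (Fin s) (Fin s) ℤ_[p])ˣ) :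
          Matrix (Fin s) (Fin s) ℤ_[p]) k l) Finset.univ
      refine e4.trans (Finset.sum_congr rfl fun k _ => ?_)
      exact map_mul (PadicInt.Coe.ringHom (p := p)) _ _
    rw [h3, h2]
    push_cast
    refine Finset.sum_congr rfl fun j _ => Finset.sum_congr rfl fun k _ => ?_
    rw [h1, hv]
    rfl
  have hinj : ∀ n m : ℕ, vecf U P v (n : ℤ) = vecf U P v (m : ℤ) →
      lab hT P χ n = lab hT P χ m := by
    intro n m h
    apply hψ
    funext l
    have h1 := hlab n l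
    rw [h, hlab m l] at h1
    exact_mod_cast h1.symm
  have hinj' : ∀ n m : ℕ, lab hT P χ n = lab hT P χ m →
      vecf U P v (n : ℤ) = vecf U P v (m : ℤ) := by
    intro n m h
    funext l
    apply Subtype.ext
    show ((vecf U P v (n : ℤ) l : ℤ_[p]) : ℚ_[p]) = ((vecf U P v (m : ℤ) l : ℤ_[p]) : ℚ_[p])
    rw [hlab, hlab, h]
  obtain ⟨q, hq, hcl⟩ := vec_classes (p := p) (E := E) (by omega) hpE U P hdeg v
  refine ⟨q, hq, fun r => ?_⟩
  rcases hcl r with h | ⟨K, hK⟩
  · left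
    intro n
    exact hinj _ _ (h n)
  · right
    refine ⟨K, 1, by positivity, one_pos, fun c N hN => ?_⟩
    rw [sub_self, Real.rpow_zero, mul_one]
    have h1 : zc (fun n => lab hT P χ (r + q * n) - c) N ≤ K := by
      unfold zc
      rcases ((Finset.range N).filter
        (fun n => lab hT P χ (r + q * n) - c = 0)).eq_empty_or_nonempty with he | ⟨n₀, hn₀⟩
      · simp only [he, Finset.card_empty, Nat.zero_le]
      · refine hK (vecf U P v ((r + q * n₀ : ℕ) : ℤ)) _ fun n hn => ?_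
        simp only [Finset.mem_filter, sub_eq_zero] at hn hn₀
        exact hinj' _ _ (hn.2.trans hn₀.2.symm)
    exact_mod_cast h1

end main

end Pool.Agent.Helper26K1.AB
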