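import Pool.Agent.Helper26K1.AB.NFew
import Pool.Agent.Helper26K1.AB.Sol

/-!
# The dichotomy for sums over polynomial orbits in modules over nilpotent groups
-/

set_option autoImplicit false
set_option linter.unusedSectionVars false

open Polynomial Filter Topology MeasureTheory

noncomputable section

namespace Pool.Agent.Helper26K1.AB

open Pool.Agent.TH784.AA (IsAff isAff_prod)
open Pool.Agent.Helper26K1.AP (pw ex PD zc zc_mono pw_map AffG linM linM_apply pw_coe fil fil_anti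
  fil_comm fil_bot Q_prod shp ex_shp)

/-! ### The dichotomy -/

section dich

variable {M : Type*} [AddCommGroup M]

/-- few coincidences or constant, on residue classes -/
def DichG (f : ℕ → M) : Prop :=
  ∃ q : ℕ, 1 ≤ q ∧ ∀ r : ℕ, (∀ n, f (r + q * n) = f r) ∨
    ∃ C δ : ℝ, 0 ≤ C ∧ 0 < δ ∧ ∀ c, ∀ N : ℕ, 1 ≤ N →
      (zc (fun n => f (r + q * n) - c) N : ℝ) ≤ C * (N : ℝ) ^ (1 - δ)

theorem zc_sub (g : ℕ → M) {K : ℕ} (hK : 1 ≤ K) (N : ℕ) :
    zc (fun n => g (K * n)) N ≤ zc g (K * N) := by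
  classical
  unfold zc
  refine Finset.card_le_card_of_injOn (fun n => K * n) ?_ ?_
  · intro n hn
    simp only [Finset.coe_filter, Finset.mem_range, Set.mem_ofPred_eq] at hn ⊢
    exact ⟨Nat.mul_lt_mul_of_pos_left hn.1 (by omega), hn.2⟩
  · intro a _ b _ h
    exact Nat.eq_of_mul_eq_mul_left (by omega) h

/-- finitely many jointly injective maps -/
theorem dich_comb {k : ℕ} {M' : Fin k → Type*} [∀ i, AddCommGroup (M' i)]
    (π : ∀ i, M →+ M' i) (hπ : ∀ x, (∀ i, π i x = 0) → x = 0) {f : ℕ → M}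
    (h : ∀ i, DichG (fun n => π i (f n))) : DichG f := by
  classical
  choose q hq hd using h
  set Q := ∏ i, q i with hQ
  have hQ1 : 1 ≤ Q := Nat.succ_le_of_lt (Finset.prod_pos fun i _ => hq i)
  have hdvd : ∀ i, ∃ K, 1 ≤ K ∧ Q = q i * K := by
    intro i
    obtain ⟨K, hK⟩ := Finset.dvd_prod_of_mem q (Finset.mem_univ i)
    refine ⟨K, ?_, hK⟩
    rcases Nat.eq_zero_or_pos K with h | h
    · rw [h, Nat.mul_zero] at hK
      omega
    · exact h
  choose K hK1 hK using hdvd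
  refine ⟨Q, hQ1, fun r => ?_⟩
  by_cases hall : ∀ i, ∀ n, π i (f (r + q i * n)) = π i (f r)
  · left
    intro n
    rw [← sub_eq_zero]
    apply hπ
    intro i
    rw [map_sub, hK i, Nat.mul_assoc, hall i, sub_self]
  · right
    push Not at hall
    obtain ⟨i, hi⟩ := hall
    obtain ⟨C, δ, hC, hδ, hfew⟩ := (hd i r).resolve_left (by
      obtain ⟨n, hn⟩ := hi
      exact fun h => hn (h n))
    refine ⟨C * (K i : ℝ) ^ (1 - δ), δ, by positivity, hδ, fun c N hN => ?_⟩
    have h1 : zc (fun n => f (r + Q * n) - c) N ≤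
        zc (fun n => (fun m => π i (f (r + q i * m)) - π i c) (K i * n)) N := by
      refine zc_mono (fun n hn => ?_) N
      show π i (f (r + q i * (K i * n))) - π i c = 0
      rw [← Nat.mul_assoc, ← hK i, ← map_sub, hn, map_zero]
    have h2 := h1.trans (zc_sub (fun m => π i (f (r + q i * m)) - π i c) (hK1 i) N)
    have h3 := hfew (π i c) (K i * N) (Nat.mul_pos (hK1 i) hN)
    have h4 : (zc (fun n => f (r + Q * n) - c) N : ℝ) ≤
        (zc (fun m => π i (f (r + q i * m)) - π i c) (K i * N) : ℝ) := by exact_mod_cast h2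
    refine (h4.trans h3).trans (le_of_eq ?_)
    push_cast
    rw [Real.mul_rpow (Nat.cast_nonneg _) (Nat.cast_nonneg _), mul_assoc]

end dich

/-! ### Sums over polynomial orbits -/

variable {Γ : Type*} [Group Γ] {M : Type*} [AddCommGroup M] {d : ℕ} {J : Type} [Fintype J]

/-- sums over polynomial orbits -/
def fl (B : Γ →* (AddMonoid.End M)ˣ) (T : Fin d → Γ) (P : J → Fin d → ℤ[X]) (v : J → M) (n : ℕ) :
    M := ∑ j, ((B (pw T (ex (P j) n))⁻¹ : (AddMonoid.End M)ˣ) : AddMonoid.End M) (v j)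

theorem fl_shp (B : Γ →* (AddMonoid.End M)ˣ) (T : Fin d → Γ) (P : J → Fin d → ℤ[X]) (v : J → M)
    (q r n : ℕ) : fl B T (fun j i => shp q r (P j i)) v n = fl B T P v (r + q * n) := by
  unfold fl
  exact Finset.sum_congr rfl fun j _ => by rw [ex_shp]

/-! ### Finite rank -/

section sol

variable {s : ℕ} {ψ : M →+ (Fin s → ℚ)} {y : Fin s → M}

/-- the representation by rational matrices -/
def glG (hψ : Function.Injective ψ) (hy : ∀ k, ψ (y k) = Pi.single k 1)
    (B : Γ →* (AddMonoid.End M)ˣ) : Γ →* (Matrix (Fin s) (Fin s) ℚ)ˣ :=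
  MonoidHom.toHomUnits
    { toFun := fun g => mat ψ y ((B g⁻¹ : (AddMonoid.End M)ˣ) : AddMonoid.End M)
      map_one' := by
        rw [inv_one, map_one]
        exact mat_id hy
      map_mul' := fun g h => by
        rw [mul_inv_rev, map_mul]
        exact mat_comp hψ hy _ _ }

theorem dichG_sol {r : ℕ} (φ : M →+ (Fin r → ℚ)) (hφ : Function.Injective φ)
    (B : Γ →* (AddMonoid.End M)ˣ) (T : Fin d → Γ) (P : J → Fin d → ℤ[X]) (χ : J → M) :
    DichG (fl B T P χ) := by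
  classical
  obtain ⟨s, ψ, y, hψ, hy⟩ := exists_coord φ hφ
  set E : ℕ := 1 + ∑ j, ∑ i, (P j i).natDegree with hE
  have hdeg : ∀ j i, (P j i).natDegree ≤ E := by
    intro j i
    have h1 : (P j i).natDegree ≤ ∑ i, (P j i).natDegree :=
      Finset.single_le_sum (f := fun i => (P j i).natDegree) (fun _ _ => Nat.zero_le _)
        (Finset.mem_univ i)
    have h2 : ∑ i, (P j i).natDegree ≤ ∑ j, ∑ i, (P j i).natDegree :=
      Finset.single_le_sum (f := fun j => ∑ i, (P j i).natDegree) (fun _ _ => Nat.zero_le _)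
        (Finset.mem_univ j)
    omega
  -- the prime
  obtain ⟨p, hpf, hpE, hp⟩ := exists_prime (ι := ((Fin d × Fin s × Fin s) ⊕
    (Fin d × Fin s × Fin s)) ⊕ (J × Fin s))
    (Sum.elim (Sum.elim (fun t => (glG hψ hy B (T t.1) : Matrix (Fin s) (Fin s) ℚ) t.2.1 t.2.2)
      (fun t => (((glG hψ hy B (T t.1))⁻¹ : (Matrix (Fin s) (Fin s) ℚ)ˣ) :
        Matrix (Fin s) (Fin s) ℚ) t.2.1 t.2.2))
      (fun t => ψ (χ t.1) t.2)) (2 * E + 1)
  choose U hU using fun i => exists_lift (p := p) (glG hψ hy B (T i))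
    (fun a b => hp (Sum.inl (Sum.inl (i, a, b)))) (fun a b => hp (Sum.inl (Sum.inr (i, a, b))))
  let v : J → Fin s → ℤ_[p] := fun j k => ⟨_, hp (Sum.inr (j, k))⟩
  have hv : ∀ j k, ((v j k : ℤ_[p]) : ℚ_[p]) = ((ψ (χ j) k : ℚ) : ℚ_[p]) :=
    fun j k => rfl
  -- the values
  have hlab : ∀ (n : ℕ) (l : Fin s), ((vecf U P v (n : ℤ) l : ℤ_[p]) : ℚ_[p]) =
      ((ψ (fl B T P χ n) l : ℚ) : ℚ_[p]) := by
    intro n l
    have h1 : ∀ j, (zp p s (mats U P j (n : ℤ)) : Matrix (Fin s) (Fin s) ℚ_[p]) =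
        (qp p s (glG hψ hy B (pw T (ex (P j) n))) : Matrix (Fin s) (Fin s) ℚ_[p]) := by
      intro j
      congr 1
      have e1 : mats U P j (n : ℤ) = pw U (ex (P j) n) := rfl
      rw [e1, pw_map, pw_map, pw_map]
      congr 1
      funext i
      exact hU i
    have h2 : ψ (fl B T P χ n) l = ∑ j, ∑ k, ψ (χ j) k *
        (glG hψ hy B (pw T (ex (P j) n)) : Matrix (Fin s) (Fin s) ℚ) k l := by
      unfold fl
      rw [map_sum, Finset.sum_apply]
      refine Finset.sum_congr rfl fun j _ => ?_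
      have e3 := congrFun (mat_spec hψ hy
        ((B (pw T (ex (P j) n))⁻¹ : (AddMonoid.End M)ˣ) : AddMonoid.End M) (χ j)) l
      exact e3
    have h3 : ((vecf U P v (n : ℤ) l : ℤ_[p]) : ℚ_[p]) = ∑ j, ∑ k, ((v j k : ℤ_[p]) : ℚ_[p]) *
        (zp p s (mats U P j (n : ℤ)) : Matrix (Fin s) (Fin s) ℚ_[p]) k l := by
      unfold vecf
      rw [Finset.sum_apply]
      have e3 := map_sum (PadicInt.Coe.ringHom (p := p)) (fun j => Matrix.vecMul (v j)
        ((mats U P j (n : ℤ) : (Matrix (Fin s) (Fin s) ℤ_[p])ˣ) :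
          Matrix (Fin s) (Fin s) ℤ_[p]) l) Finset.univ
      refine e3.trans (Finset.sum_congr rfl fun j _ => ?_)
      have e4 := map_sum (PadicInt.Coe.ringHom (p := p)) (fun k => v j k *
        ((mats U P j (n : ℤ) : (Matrix (Fin s) (Fin s) ℤ_[p])ˣ) :
          Matrix (Fin s) (Fin s) ℤ_[p]) k l) Finset.univ
      refine e4.trans (Finset.sum_congr rfl fun k _ => ?_)
      exact map_mul (PadicInt.Coe.ringHom (p := p)) _ _
    rw [h3, h2]
    push_cast
    refine Finset.sum_congr rfl fun j _ => Finset.sum_congr rfl fun k _ => ?_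
    rw [h1, hv]
    rfl
  have hinj : ∀ n m : ℕ, vecf U P v (n : ℤ) = vecf U P v (m : ℤ) →
      fl B T P χ n = fl B T P χ m := by
    intro n m h
    apply hψ
    funext l
    have h1 := hlab n l
    rw [h, hlab m l] at h1
    exact_mod_cast h1.symm
  have hinj' : ∀ n m : ℕ, fl B T P χ n = fl B T P χ m →
      vecf U P v (n : ℤ) = vecf U P v (m : ℤ) := by
    intro n m h
    funext l
    apply Subtype.ext
    show ((vecf U P v (n : ℤ) l : ℤ_[p]) : ℚ_[p]) = ((vecf U P v (m : ℤ) l : ℤ_[p]) : ℚ_[p])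
    rw [hlab, hlab, h]
  obtain ⟨q, hq, hcl⟩ := vec_classes (p := p) (E := E) (by omega) hpE U P hdeg v
  refine ⟨q, hq, fun r => ?_⟩
  rcases hcl r with h | ⟨K, hK⟩
  · left
    intro n
    exact hinj _ _ (h n)
  · right
    refine ⟨K, 1, by positivity, one_pos, fun c N hN => ?_⟩
    rw [sub_self, Real.rpow_zero, mul_one]
    have h1 : zc (fun n => fl B T P χ (r + q * n) - c) N ≤ K := by
      unfold zc
      rcases ((Finset.range N).filter
        (fun n => fl B T P χ (r + q * n) - c = 0)).eq_empty_or_nonempty with he | ⟨n₀, hn₀⟩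
      · simp only [he, Finset.card_empty, Nat.zero_le]
      · refine hK (vecf U P v ((r + q * n₀ : ℕ) : ℤ)) _ fun n hn => ?_
        simp only [Finset.mem_filter, sub_eq_zero] at hn hn₀
        exact hinj' _ _ (hn.2.trans hn₀.2.symm)
    exact_mod_cast h1

end sol

/-! ### Elements acting trivially or without periodic points -/

theorem core_free (hnil : Group.IsNilpotent Γ) (B : Γ →* (AddMonoid.End M)ˣ)
    (hE : ∀ g, B g = 1 ∨ ∀ k : ℕ, 1 ≤ k → ∀ x,
      ((B g ^ k : (AddMonoid.End M)ˣ) : AddMonoid.End M) x = x → x = 0)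
    (T : Fin d → Γ) (P : J → Fin d → ℤ[X]) (χ : J → M) :
    (∀ n, fl B T P χ n = fl B T P χ 0) ∨ ∃ C δ : ℝ, 0 ≤ C ∧ 0 < δ ∧ ∀ c, ∀ N : ℕ, 1 ≤ N →
      (zc (fun n => fl B T P χ n - c) N : ℝ) ≤ C * (N : ℝ) ^ (1 - δ) := by
  classical
  set S := B.range with hS
  have hSnil : Group.IsNilpotent S :=
    Group.nilpotent_of_surjective B.rangeRestrict B.rangeRestrict_surjective
  obtain ⟨s, hs⟩ := (Subgroup.isNilpotent_iff_lowerCentralSeries _).1 hSnil
  obtain ⟨D, hD1, hD⟩ := exists_PD P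
  have hΦ : Fil (fil S D) := ⟨fil_anti S D, fil_comm S hD1⟩
  have hbot : fil S D (s * D + 1) = ⊥ := fil_bot S hs hD1 le_rfl
  have hΦ0 : fil S D 0 ≤ S := by
    refine (S.lowerCentralSeries_antitone (Nat.zero_le _)).trans ?_
    rw [Subgroup.lowerCentralSeries_zero]
  let ρ : (AddMonoid.End M)ˣ → M →+ M := fun U => (U : AddMonoid.End M)
  have hρ : ∀ g h x, ρ (g * h) x = ρ g (ρ h x) := fun g h x => rfl
  have hρ1 : ∀ x, ρ 1 x = x := fun x => rfl
  have hkey : ∀ g ∈ S, g ≠ 1 → ∀ k : ℕ, 1 ≤ k → ∀ x, ρ (g ^ k) x = x → x = 0 := by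
    rintro _ ⟨g, rfl⟩ hg1
    exact (hE g).resolve_left hg1
  have htf : ∀ g ∈ fil S D 0, ∀ k : ℕ, 1 ≤ k → g ^ k = 1 → g = 1 := by
    intro g hg k hk hgk
    by_contra hg1
    apply hg1
    apply Units.ext
    refine AddMonoidHom.ext fun x => ?_
    have h1 : ∀ x : M, x = 0 := fun x => hkey g (hΦ0 hg) hg1 k hk x (by rw [hgk, hρ1])
    rw [h1 x, map_zero, map_zero]
  have hfree : ∀ g ∈ fil S D 0, g ≠ 1 → ∀ x, ρ g x = x → x = 0 := by
    intro g hg hg1 x hx
    exact hkey g (hΦ0 hg) hg1 1 le_rfl x (by rw [pow_one, hx])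
  -- the sequences
  let γ : J → ℕ → (AddMonoid.End M)ˣ := fun j n => (pw (fun i => B (T i)) (ex (P j) n))⁻¹
  have hTS : ∀ i, B (T i) ∈ S := fun i => ⟨T i, rfl⟩
  have hγ : ∀ j, γ j ∈ PS hΦ 0 := by
    intro j
    have h1 : (fun n => pw (fun i => B (T i)) (ex (P j) n)) ∈ PS hΦ 0 := fun m =>
      Q_prod S hD1 m _ hTS _ (hD j)
    exact (PS hΦ 0).inv_mem h1
  let w : J → ℕ → (AddMonoid.End M)ˣ := fun j n => γ j n * (γ j 0)⁻¹
  have hw : ∀ j, w j ∈ PS hΦ 0 := fun j =>
    (PS hΦ 0).mul_mem (hγ j) (const_mem (Subgroup.inv_mem _ (PS_val (hγ j) 0)))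
  have hw0 : ∀ j, w j 0 = 1 := fun j => mul_inv_cancel _
  let v : J → M := fun j => ρ (γ j 0) (χ j)
  have hlab : ∀ n, fl B T P χ n = ∑ j, ρ (w j n) (v j) := by
    intro n
    unfold fl
    refine Finset.sum_congr rfl fun j _ => ?_
    have e1 : ρ (w j n) (v j) = ρ (γ j n) (χ j) := by
      show ρ (γ j n * (γ j 0)⁻¹) (ρ (γ j 0) (χ j)) = _
      rw [← hρ, inv_mul_cancel_right]
    have e2 : γ j n = B (pw T (ex (P j) n))⁻¹ := by
      show (pw (fun i => B (T i)) (ex (P j) n))⁻¹ = _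
      rw [map_inv, pw_map]
    rw [e1, e2]
    rfl
  -- the family
  let S₀ : Finset (ℕ → (AddMonoid.End M)ˣ) := insert 1 (Finset.univ.image w)
  let V₀ : (ℕ → (AddMonoid.End M)ˣ) → M := fun u =>
    ∑ j ∈ Finset.univ.filter (fun j => w j = u), v j
  have hcard : S₀.card ≤ Fintype.card J + 1 :=
    (Finset.card_insert_le _ _).trans (Nat.add_le_add_right Finset.card_image_le 1)
  have hadn : Adn hΦ S₀ := by
    refine ⟨fun u hu => ?_, fun u hu => ?_⟩
    · rcases Finset.mem_insert.1 hu with rfl | hu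
      · exact Subgroup.one_mem _
      · obtain ⟨j, _, rfl⟩ := Finset.mem_image.1 hu
        exact hw j
    · rcases Finset.mem_insert.1 hu with rfl | hu
      · rfl
      · obtain ⟨j, _, rfl⟩ := Finset.mem_image.1 hu
        exact hw0 j
  have hfam : ∀ n, fl B T P χ n = ∑ u ∈ S₀, ρ (u n) (V₀ u) := by
    intro n
    rw [hlab]
    have e1 : ∀ u ∈ S₀, ρ (u n) (V₀ u) = ∑ j ∈ Finset.univ.filter (fun j => w j = u),
        ρ (w j n) (v j) := by
      intro u _
      show ρ (u n) (∑ j ∈ Finset.univ.filter (fun j => w j = u), v j) = _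
      rw [map_sum]
      refine Finset.sum_congr rfl fun j hj => ?_
      rw [(Finset.mem_filter.1 hj).2]
    rw [Finset.sum_congr rfl e1]
    exact (Finset.sum_fiberwise_of_maps_to (s := Finset.univ) (t := S₀) (g := w)
      (fun j _ => Finset.mem_insert_of_mem (Finset.mem_image_of_mem _ (Finset.mem_univ j)))
      (fun j => ρ (w j n) (v j))).symm
  by_cases hall : ∀ u ∈ S₀, u ≠ 1 → V₀ u = 0
  · left
    have h1 : ∀ n, fl B T P χ n = V₀ 1 := by
      intro n
      rw [hfam, Finset.sum_eq_single 1]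
      · exact hρ1 _
      · intro u hu hu1
        rw [hall u hu hu1, map_zero]
      · intro h
        exact absurd (Finset.mem_insert_self _ _) h
    intro n
    rw [h1, h1]
  · right
    push Not at hall
    obtain ⟨u₀, hu₀, hu₀1, hV₀⟩ := hall
    set m := Fintype.card J + 1 with hm
    obtain ⟨C, δ, hC, hδ, _, hB⟩ := nfew (hΦ := hΦ) hbot htf hρ hρ1 hfree 0 (Or.inr rfl)
      (fun _ => m) 1 m
    refine ⟨C, δ, hC, hδ, fun c N hN => ?_⟩
    let Vc : (ℕ → (AddMonoid.End M)ˣ) → ℕ → M :=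
      fun u _ => if u = 1 then V₀ 1 - c else V₀ u
    have e1 : (fun n => fl B T P χ n - c) = vl ρ (S₀.filter fun u => Vc u ≠ 0) Vc := by
      funext n
      rw [vl_filter]
      unfold vl
      rw [hfam, ← Finset.add_sum_erase _ _ (Finset.mem_insert_self 1 (Finset.univ.image w)),
        ← Finset.add_sum_erase _ (fun u => ρ (u n) (Vc u n))
          (Finset.mem_insert_self 1 (Finset.univ.image w))]
      have e2 : ∀ u ∈ S₀.erase 1, ρ (u n) (Vc u n) = ρ (u n) (V₀ u) := by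
        intro u hu
        show ρ (u n) (if u = 1 then V₀ 1 - c else V₀ u) = _
        rw [if_neg (Finset.ne_of_mem_erase hu)]
      rw [Finset.sum_congr rfl e2]
      have e3 : ρ ((1 : ℕ → (AddMonoid.End M)ˣ) n) (Vc 1 n) =
          ρ ((1 : ℕ → (AddMonoid.End M)ˣ) n) (V₀ 1) - c := by
        show ρ 1 (if (1 : ℕ → (AddMonoid.End M)ˣ) = 1 then V₀ 1 - c
          else V₀ 1) = ρ 1 (V₀ 1) - c
        rw [if_pos rfl, hρ1, hρ1]
      rw [e3]
      abel
    rw [e1]
    refine hB _ _ ⟨hadn.mono (Finset.filter_subset _ _), ?_, ?_, ?_, ?_, ?_, ?_⟩ N hN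
    · refine ⟨u₀, Finset.mem_filter.2 ⟨hu₀, fun h => hV₀ ?_⟩⟩
      have h1 := congrFun h 0
      have h2 : Vc u₀ 0 = V₀ u₀ := if_neg hu₀1
      rw [h2] at h1
      exact h1
    · exact (Finset.card_filter_le _ _).trans hcard
    · intro i
      exact (card_clf _ _).trans ((Finset.card_filter_le _ _).trans hcard)
    · intro u _
      exact PD.const _
    · intro u hu
      exact (Finset.mem_filter.1 hu).2
    · intro _
      exact PD.const _

theorem dichG_free (hnil : Group.IsNilpotent Γ) (B : Γ →* (AddMonoid.End M)ˣ)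
    (hE : ∀ g, B g = 1 ∨ ∀ k : ℕ, 1 ≤ k → ∀ x,
      ((B g ^ k : (AddMonoid.End M)ˣ) : AddMonoid.End M) x = x → x = 0)
    (T : Fin d → Γ) (P : J → Fin d → ℤ[X]) (χ : J → M) : DichG (fl B T P χ) := by
  refine ⟨1, le_rfl, fun r => ?_⟩
  have h := core_free hnil B hE T (fun j i => shp 1 r (P j i)) χ
  simp only [fl_shp, Nat.mul_zero, add_zero] at h
  exact h

/-! ### Quotients -/

/-- the action on a quotient -/
def quo (B : Γ →* (AddMonoid.End M)ˣ) (N : AddSubgroup M)
    (hN : ∀ g, ∀ x ∈ N, ((B g : (AddMonoid.End M)ˣ) : AddMonoid.End M) x ∈ N) :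
    Γ →* (AddMonoid.End (M ⧸ N))ˣ :=
  MonoidHom.toHomUnits
    { toFun := fun g => QuotientAddGroup.map N N ((B g : (AddMonoid.End M)ˣ) : AddMonoid.End M)
        (fun x hx => hN g x hx)
      map_one' := by
        refine AddMonoidHom.ext fun x => ?_
        obtain ⟨x, rfl⟩ := QuotientAddGroup.mk_surjective x
        show (QuotientAddGroup.mk (((B 1 : (AddMonoid.End M)ˣ) : AddMonoid.End M) x) : M ⧸ N) = _
        rw [map_one]
        rfl
      map_mul' := fun g h => by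
        refine AddMonoidHom.ext fun x => ?_
        obtain ⟨x, rfl⟩ := QuotientAddGroup.mk_surjective x
        show (QuotientAddGroup.mk (((B (g * h) : (AddMonoid.End M)ˣ) : AddMonoid.End M) x) :
          M ⧸ N) = _
        rw [map_mul]
        rfl }

theorem quo_mk (B : Γ →* (AddMonoid.End M)ˣ) (N : AddSubgroup M)
    (hN : ∀ g, ∀ x ∈ N, ((B g : (AddMonoid.End M)ˣ) : AddMonoid.End M) x ∈ N) (g : Γ) (x : M) :
    ((quo B N hN g : (AddMonoid.End (M ⧸ N))ˣ) : AddMonoid.End (M ⧸ N)) (QuotientAddGroup.mk x) =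
      QuotientAddGroup.mk (((B g : (AddMonoid.End M)ˣ) : AddMonoid.End M) x) := rfl

theorem fl_quo (B : Γ →* (AddMonoid.End M)ˣ) (N : AddSubgroup M)
    (hN : ∀ g, ∀ x ∈ N, ((B g : (AddMonoid.End M)ˣ) : AddMonoid.End M) x ∈ N) (T : Fin d → Γ)
    (P : J → Fin d → ℤ[X]) (v : J → M) (n : ℕ) :
    QuotientAddGroup.mk' N (fl B T P v n) =
      fl (quo B N hN) T P (fun j => QuotientAddGroup.mk' N (v j)) n := by
  unfold fl
  rw [map_sum]
  rfl

/-- **The dichotomy.** -/
theorem dichG_main (hnil : Group.IsNilpotent Γ) (B : Γ →* (AddMonoid.End M)ˣ) {k : ℕ}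
    (N : Fin k → AddSubgroup M) (hN0 : ∀ x, (∀ i, x ∈ N i) → x = 0)
    (hN : ∀ i g, ∀ x ∈ N i, ((B g : (AddMonoid.End M)ˣ) : AddMonoid.End M) x ∈ N i)
    (h : ∀ i, (∃ (r : ℕ) (φ : M →+ (Fin r → ℚ)), ∀ x, φ x = 0 ↔ x ∈ N i) ∨
      ∀ g, (∀ x, ((B g : (AddMonoid.End M)ˣ) : AddMonoid.End M) x - x ∈ N i) ∨
        ∀ k : ℕ, 1 ≤ k → ∀ x, ((B (g ^ k) : (AddMonoid.End M)ˣ) : AddMonoid.End M) x - x ∈ N i →
          x ∈ N i)
    (T : Fin d → Γ) (P : J → Fin d → ℤ[X]) (χ : J → M) : DichG (fl B T P χ) := by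
  refine dich_comb (fun i => QuotientAddGroup.mk' (N i)) (fun x hx => hN0 x fun i =>
    (QuotientAddGroup.eq_zero_iff x).1 (hx i)) fun i => ?_
  simp only [fl_quo B (N i) (hN i)]
  rcases h i with ⟨r, φ, hφ⟩ | h'
  · refine dichG_sol (QuotientAddGroup.lift (N i) φ fun x hx => (hφ x).2 hx) ?_ _ _ _ _
    rw [injective_iff_map_eq_zero]
    intro x hx
    obtain ⟨x, rfl⟩ := QuotientAddGroup.mk_surjective x
    exact (QuotientAddGroup.eq_zero_iff x).2 ((hφ x).1 hx)
  · refine dichG_free hnil _ (fun g => ?_) _ _ _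
    rcases h' g with h'' | h''
    · left
      apply Units.ext
      refine AddMonoidHom.ext fun x => ?_
      obtain ⟨x, rfl⟩ := QuotientAddGroup.mk_surjective x
      have h1 := (QuotientAddGroup.eq_zero_iff _).2 (h'' x)
      rw [QuotientAddGroup.mk_sub, sub_eq_zero] at h1
      exact h1
    · right
      intro k hk x hx
      obtain ⟨x, rfl⟩ := QuotientAddGroup.mk_surjective x
      rw [← map_pow] at hx
      have hx' : (QuotientAddGroup.mk (((B (g ^ k) : (AddMonoid.End M)ˣ) : AddMonoid.End M) x) :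
        M ⧸ N i) = QuotientAddGroup.mk x := hx
      refine (QuotientAddGroup.eq_zero_iff x).2 (h'' k hk x ?_)
      rw [← QuotientAddGroup.eq_zero_iff, QuotientAddGroup.mk_sub, hx', sub_self]

end Pool.Agent.Helper26K1.AB
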