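import Pool.Agent.Helper26K1.AB.NPet

/-!
# Few zeros of sums over polynomial orbits of nilpotent groups without fixed vectors
-/

set_option autoImplicit false

open Finset
open scoped commutatorElement

noncomputable section

namespace Pool.Agent.Helper26K1.AB

open Pool.Agent.Helper26K1.AP (dd dl PD zc zc_mono zc_of_pairs wdn wdn_lt unif rpow_mono_delta
  ne_of_inj ne_of_tf exists_top it_shift const_of_dl PD.sub PD.sum PD.shift PD.map PD.zero PD.diff)

variable {G : Type*} [Group G] {Φ : ℕ → Subgroup G} {hΦ : Fil Φ}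

/-! ### Periodic polynomial sequences -/

theorem const_of_dd {f : ℕ → G} {c : G} (h : ∀ n, dd f n = c) (n : ℕ) : f n = c ^ n * f 0 := by
  induction n with
  | zero => rw [pow_zero, one_mul]
  | succ n ih =>
    have h1 : f (n + 1) = c * f n := by
      rw [← h n]
      unfold dd
      rw [inv_mul_cancel_right]
    rw [h1, ih, pow_succ', mul_assoc]

theorem periodic_const {L : ℕ} (hL : Φ L = ⊥)
    (htf : ∀ g ∈ Φ 0, ∀ k : ℕ, 1 ≤ k → g ^ k = 1 → g = 1) {h k : ℕ} (hk : 1 ≤ k) :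
    ∀ (i : ℕ) (f : ℕ → G), f ∈ PS hΦ (L - i) → (∀ n, f (n + h + k) = f (n + h)) →
      ∀ n, f n = f 0 := by
  intro i
  induction i with
  | zero =>
    intro f hf _ n
    have h1 : ∀ n, f n = 1 := fun n => by
      have := PS_val hf n
      rw [Nat.sub_zero, hL, Subgroup.mem_bot] at this
      exact this
    rw [h1, h1]
  | succ i ih =>
    intro f hf hper n
    by_cases hi : L ≤ i
    · have e : L - (i + 1) = L - i := by omega
      rw [e] at hf
      exact ih f hf hper n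
    have hdd : dd f ∈ PS hΦ (L - i) := by
      have := PS_dd hf
      rwa [show L - (i + 1) + 1 = L - i by omega] at this
    have h1 := ih (dd f) hdd (fun n => by
      unfold dd
      have e1 := hper (n + 1)
      have e2 := hper n
      rw [show n + 1 + h + k = n + h + k + 1 by ring, show n + 1 + h = n + h + 1 by ring] at e1
      rw [e1, e2])
    have h2 := const_of_dd (c := dd f 0) (fun n => h1 n)
    have h3 : (dd f 0) ^ k = 1 := by
      have := hper 0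
      rw [h2 (0 + h + k), h2 (0 + h)] at this
      have h4 := mul_right_cancel this
      rw [pow_add] at h4
      exact mul_eq_left.1 h4
    have h5 : dd f 0 ∈ Φ 0 := by
      have h6 : dd f ∈ PS hΦ 0 := PS_le (Nat.zero_le _) hdd
      exact PS_val h6 0
    have h7 := htf _ h5 k hk h3
    rw [h2 n, h7, one_pow, one_mul]

/-! ### Families -/

/-- the normalized shift -/
def shh (h : ℕ) (u : ℕ → G) : ℕ → G := fun n => u (n + h) * (u h)⁻¹

theorem shh_zero (h : ℕ) (u : ℕ → G) : shh h u 0 = 1 := by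
  unfold shh
  rw [zero_add, mul_inv_cancel]

theorem shh_one (h : ℕ) : shh h (1 : ℕ → G) = 1 := by
  funext n
  simp [shh]

theorem const_mem {i : ℕ} {c : G} (hc : c ∈ Φ i) : (fun _ : ℕ => c) ∈ PS hΦ i := by
  intro m
  cases m with
  | zero => exact fun _ => hc
  | succ m =>
    refine ⟨fun _ => hc, ?_⟩
    have e : dd (fun _ : ℕ => c) = 1 := by
      funext n
      simp [dd]
    rw [e]
    exact Q_one Φ m (i + 1)

theorem val_succ {i : ℕ} {u : ℕ → G} (hu : u ∈ PS hΦ i) (h0 : u 0 = 1) (n : ℕ) :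
    u n ∈ Φ (i + 1) := by
  induction n with
  | zero =>
    rw [h0]
    exact Subgroup.one_mem _
  | succ n ih =>
    have h1 : u (n + 1) = dd u n * u n := by
      unfold dd
      rw [inv_mul_cancel_right]
    rw [h1]
    exact Subgroup.mul_mem _ (PS_val (PS_dd hu) n) ih

theorem shiftn_mem {i : ℕ} {u : ℕ → G} (hu : u ∈ PS hΦ i) (h : ℕ) :
    (fun n => u (n + h)) ∈ PS hΦ i := by
  induction h with
  | zero => exact hu
  | succ h ih =>
    have e : (fun n => u (n + (h + 1))) = sh (fun n => u (n + h)) := by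
      funext n
      show u (n + (h + 1)) = u (n + 1 + h)
      congr 1
      ring
    rw [e]
    exact sh_mem ih

theorem shiftn_class {i : ℕ} {u : ℕ → G} (h0 : u ∈ PS hΦ 0) (hu : u ∈ PS hΦ i) (h : ℕ) :
    (fun n => u (n + h))⁻¹ * u ∈ PS hΦ (i + 1) := by
  induction h with
  | zero =>
    have e : (fun n => u (n + 0))⁻¹ * u = 1 := by
      show u⁻¹ * u = 1
      rw [inv_mul_cancel]
    rw [e]
    exact Subgroup.one_mem _
  | succ h ih =>
    have e : (fun n => u (n + (h + 1))) = sh (fun n => u (n + h)) := by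
      funext n
      show u (n + (h + 1)) = u (n + 1 + h)
      congr 1
      ring
    have h1 := sh_class (hΦ := hΦ) (shiftn_mem h0 h) (shiftn_mem hu h)
    have e2 : (fun n => u (n + (h + 1)))⁻¹ * u =
        (sh (fun n => u (n + h)))⁻¹ * (fun n => u (n + h)) * ((fun n => u (n + h))⁻¹ * u) := by
      rw [e]
      group
    rw [e2]
    exact Subgroup.mul_mem _ h1 ih

theorem shh_eq (h : ℕ) (u : ℕ → G) : shh h u = (fun n => u (n + h)) * (fun _ => (u h)⁻¹) := rfl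

theorem shh_mem {i : ℕ} {u : ℕ → G} (hu : u ∈ PS hΦ i) (h : ℕ) : shh h u ∈ PS hΦ i := by
  rw [shh_eq]
  exact Subgroup.mul_mem _ (shiftn_mem hu h) (const_mem (Subgroup.inv_mem _ (PS_val hu h)))

theorem shh_class {i : ℕ} {u : ℕ → G} (h0 : u ∈ PS hΦ 0) (hu : u ∈ PS hΦ i) (hu0 : u 0 = 1)
    (h : ℕ) : (shh h u)⁻¹ * u ∈ PS hΦ (i + 1) := by
  have e : (shh h u)⁻¹ * u = (fun _ => u h) * ((fun n => u (n + h))⁻¹ * u) := by
    rw [shh_eq, mul_inv_rev, mul_assoc]
    congr 1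
    funext n
    show ((u h)⁻¹)⁻¹ = u h
    rw [inv_inv]
  rw [e]
  exact Subgroup.mul_mem _ (const_mem (val_succ hu hu0 h)) (shiftn_class h0 hu h)

theorem mem_of_shh (h : ℕ) : ∀ (i : ℕ) {u : ℕ → G}, u ∈ PS hΦ 0 → u 0 = 1 → shh h u ∈ PS hΦ i →
    u ∈ PS hΦ i
  | 0, _, h0, _, _ => h0
  | i + 1, u, h0, hu0, hs => by
    have h1 : u ∈ PS hΦ i := mem_of_shh h i h0 hu0 (PS_le (Nat.le_succ i) hs)
    have h2 : u = shh h u * ((shh h u)⁻¹ * u) := by group
    rw [h2]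
    exact Subgroup.mul_mem _ hs (shh_class h0 h1 hu0 h)

/-- eventually constant polynomial sequences -/
theorem ev_const {L : ℕ} (hL : Φ L = ⊥)
    (htf : ∀ g ∈ Φ 0, ∀ k : ℕ, 1 ≤ k → g ^ k = 1 → g = 1) {u : ℕ → G} (hu : u ∈ PS hΦ 0)
    {h : ℕ} {c : G} (hc : ∀ n, u (n + h) = c) (n : ℕ) : u n = u 0 :=
  periodic_const hL htf (h := h) (k := 1) le_rfl L u (by rwa [Nat.sub_self]) (fun n => by
    rw [hc, show n + h + 1 = (n + 1) + h by ring, hc]) n

theorem shh_inj {L : ℕ} (hL : Φ L = ⊥)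
    (htf : ∀ g ∈ Φ 0, ∀ k : ℕ, 1 ≤ k → g ^ k = 1 → g = 1) {u w : ℕ → G} (hu : u ∈ PS hΦ 0)
    (hw : w ∈ PS hΦ 0) (hu0 : u 0 = 1) (hw0 : w 0 = 1) {h : ℕ} (e : shh h u = shh h w) : u = w := by
  have h1 : ∀ n, (w⁻¹ * u) (n + h) = (w h)⁻¹ * u h := by
    intro n
    have h2 := congrFun e n
    unfold shh at h2
    show (w (n + h))⁻¹ * u (n + h) = _
    have h3 : u (n + h) = w (n + h) * (w h)⁻¹ * u h := by
      rw [← h2, inv_mul_cancel_right]
    rw [h3]
    group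
  have h2 := ev_const hL htf (Subgroup.mul_mem _ (Subgroup.inv_mem _ hw) hu) h1
  funext n
  have h3 := h2 n
  have h4 : (w⁻¹ * u) n = (w n)⁻¹ * u n := rfl
  have h5 : (w⁻¹ * u) 0 = 1 := by
    show (w 0)⁻¹ * u 0 = 1
    rw [hw0, hu0, inv_one, one_mul]
  rw [h4, h5] at h3
  exact (inv_mul_eq_one.1 h3).symm

theorem shh_eq_one {L : ℕ} (hL : Φ L = ⊥)
    (htf : ∀ g ∈ Φ 0, ∀ k : ℕ, 1 ≤ k → g ^ k = 1 → g = 1) {u : ℕ → G} (hu : u ∈ PS hΦ 0)
    (hu0 : u 0 = 1) {h : ℕ} (e : shh h u = 1) : u = 1 :=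
  shh_inj hL htf hu (Subgroup.one_mem (PS hΦ 0)) hu0 rfl (e.trans (shh_one h).symm)

/-! ### Sums -/

variable {M : Type*} [AddCommGroup M] {ρ : G → M →+ M}

/-- the sum -/
def vl (ρ : G → M →+ M) (S : Finset (ℕ → G)) (V : (ℕ → G) → ℕ → M) (n : ℕ) : M :=
  ∑ u ∈ S, ρ (u n) (V u n)

open Classical in
/-- the family of the difference -/
def dSn (h : ℕ) (S : Finset (ℕ → G)) : Finset (ℕ → G) := S ∪ S.image (shh h)

open Classical in
/-- coefficients of the difference -/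
def dVn (ρ : G → M →+ M) (h : ℕ) (S : Finset (ℕ → G)) (V : (ℕ → G) → ℕ → M) (w : ℕ → G)
    (n : ℕ) : M :=
  ∑ u ∈ S.filter (fun u => shh h u = w), ρ (u h) (V u (n + h)) - if w ∈ S then V w n else 0

open Classical in
theorem vl_diff (hρ : ∀ g h x, ρ (g * h) x = ρ g (ρ h x)) (S : Finset (ℕ → G))
    (V : (ℕ → G) → ℕ → M) (h n : ℕ) :
    vl ρ S V (n + h) - vl ρ S V n = vl ρ (dSn h S) (dVn ρ h S V) n := by
  have e1 : vl ρ (dSn h S) (dVn ρ h S V) n =
      ∑ w ∈ dSn h S, ∑ u ∈ S.filter (fun u => shh h u = w),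
        ρ (shh h u n) (ρ (u h) (V u (n + h))) -
      ∑ w ∈ dSn h S, if w ∈ S then ρ (w n) (V w n) else 0 := by
    unfold vl
    rw [← Finset.sum_sub_distrib]
    refine Finset.sum_congr rfl fun w _ => ?_
    unfold dVn
    rw [map_sub, map_sum]
    congr 1
    · refine Finset.sum_congr rfl fun u hu => ?_
      rw [(Finset.mem_filter.1 hu).2]
    · split_ifs
      · rfl
      · exact map_zero _
  have e2 : ∑ w ∈ dSn h S, (if w ∈ S then ρ (w n) (V w n) else 0) = vl ρ S V n := by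
    unfold vl
    rw [← Finset.sum_filter]
    refine Finset.sum_congr ?_ fun _ _ => rfl
    ext Q
    rw [Finset.mem_filter]
    constructor
    · exact fun hQ => hQ.2
    · intro hQ
      exact ⟨Finset.mem_union_left _ hQ, hQ⟩
  have e3 : ∑ w ∈ dSn h S, ∑ u ∈ S.filter (fun u => shh h u = w),
      ρ (shh h u n) (ρ (u h) (V u (n + h))) = ∑ u ∈ S, ρ (shh h u n) (ρ (u h) (V u (n + h))) :=
    Finset.sum_fiberwise_of_maps_to (s := S) (t := dSn h S) (g := shh h) (fun u hu => by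
      unfold dSn
      exact Finset.mem_union_right _ (Finset.mem_image_of_mem _ hu))
      (fun u => ρ (shh h u n) (ρ (u h) (V u (n + h))))
  rw [e1, e2, e3]
  congr 1
  unfold vl
  refine Finset.sum_congr rfl fun u _ => ?_
  rw [← hρ]
  unfold shh
  rw [inv_mul_cancel_right]

open Classical in
theorem vl_filter (S : Finset (ℕ → G)) (V : (ℕ → G) → ℕ → M) (n : ℕ) :
    vl ρ (S.filter (fun u => V u ≠ 0)) V n = vl ρ S V n := by
  unfold vl
  rw [Finset.sum_filter]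
  refine Finset.sum_congr rfl fun u _ => ?_
  by_cases h : V u = 0
  · rw [if_neg (by simpa using h), h]
    exact (map_zero _).symm
  · rw [if_pos h]

open Classical in
/-- translate -/
def tSn (u₁ : ℕ → G) (S : Finset (ℕ → G)) : Finset (ℕ → G) := S.image (fun u => u₁⁻¹ * u)

open Classical in
theorem vl_tS (hρ : ∀ g h x, ρ (g * h) x = ρ g (ρ h x)) (S : Finset (ℕ → G))
    (u₁ : ℕ → G) (V : (ℕ → G) → ℕ → M) (n : ℕ) :
    vl ρ (tSn u₁ S) (fun w => V (u₁ * w)) n = ρ (u₁ n)⁻¹ (vl ρ S V n) := by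
  unfold vl tSn
  rw [Finset.sum_image (fun a _ b _ e => mul_left_cancel e), map_sum]
  refine Finset.sum_congr rfl fun u _ => ?_
  show ρ ((u₁ n)⁻¹ * u n) (V (u₁ * (u₁⁻¹ * u)) n) = _
  rw [mul_inv_cancel_left, hρ]

open Classical in
/-- the classes of level `i` -/
def clf (hΦ : Fil Φ) (S : Finset (ℕ → G)) (i : ℕ) : Finset ((ℕ → G) ⧸ PS hΦ (i + 1)) :=
  (S.filter fun u => u ∈ PS hΦ i ∧ u ∉ PS hΦ (i + 1)).image
    fun u => (QuotientGroup.mk u : (ℕ → G) ⧸ PS hΦ (i + 1))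

theorem mem_clf {S : Finset (ℕ → G)} {i : ℕ} {c : (ℕ → G) ⧸ PS hΦ (i + 1)} :
    c ∈ clf hΦ S i ↔ ∃ u ∈ S, (u ∈ PS hΦ i ∧ u ∉ PS hΦ (i + 1)) ∧
      (QuotientGroup.mk u : (ℕ → G) ⧸ PS hΦ (i + 1)) = c := by
  classical
  unfold clf
  simp only [Finset.mem_image, Finset.mem_filter, and_assoc]

theorem card_clf (S : Finset (ℕ → G)) (i : ℕ) : (clf hΦ S i).card ≤ S.card := by
  classical
  unfold clf
  exact Finset.card_image_le.trans (Finset.card_filter_le _ _)

theorem clf_mono {S S' : Finset (ℕ → G)} (h : S ⊆ S') (i : ℕ) : clf hΦ S i ⊆ clf hΦ S' i := by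
  intro c hc
  rw [mem_clf] at hc ⊢
  obtain ⟨u, hu, h1, h2⟩ := hc
  exact ⟨u, h hu, h1, h2⟩

/-- admissible families -/
structure Adn (hΦ : Fil Φ) (S : Finset (ℕ → G)) : Prop where
  mem : ∀ u ∈ S, u ∈ PS hΦ 0
  at0 : ∀ u ∈ S, u 0 = 1

open Classical in
theorem Adn.dS {S : Finset (ℕ → G)} (hS : Adn hΦ S) (h : ℕ) : Adn hΦ (dSn h S) where
  mem := by
    intro w hw
    unfold dSn at hw
    rcases Finset.mem_union.1 hw with hw | hw
    · exact hS.mem w hw
    · obtain ⟨u, hu, rfl⟩ := Finset.mem_image.1 hw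
      exact shh_mem (hS.mem u hu) h
  at0 := by
    intro w hw
    unfold dSn at hw
    rcases Finset.mem_union.1 hw with hw | hw
    · exact hS.at0 w hw
    · obtain ⟨u, hu, rfl⟩ := Finset.mem_image.1 hw
      exact shh_zero h u

theorem Adn.mono {S S' : Finset (ℕ → G)} (h : Adn hΦ S') (hS : S ⊆ S') : Adn hΦ S :=
  ⟨fun u hu => h.mem u (hS hu), fun u hu => h.at0 u (hS hu)⟩

open Classical in
theorem Adn.tS {S : Finset (ℕ → G)} (hS : Adn hΦ S) {u₁ : ℕ → G} (hu₁ : u₁ ∈ S) :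
    Adn hΦ (tSn u₁ S) where
  mem := by
    intro w hw
    unfold tSn at hw
    obtain ⟨u, hu, rfl⟩ := Finset.mem_image.1 hw
    exact Subgroup.mul_mem _ (Subgroup.inv_mem _ (hS.mem u₁ hu₁)) (hS.mem u hu)
  at0 := by
    intro w hw
    unfold tSn at hw
    obtain ⟨u, hu, rfl⟩ := Finset.mem_image.1 hw
    show (u₁ 0)⁻¹ * u 0 = 1
    rw [hS.at0 u₁ hu₁, hS.at0 u hu, inv_one, one_mul]

open Classical in
theorem clf_dS {S : Finset (ℕ → G)} (hS : Adn hΦ S) (h i : ℕ) :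
    clf hΦ (dSn h S) i ⊆ clf hΦ S i := by
  intro c hc
  rw [mem_clf] at hc ⊢
  obtain ⟨w, hw, ⟨h1, h2⟩, rfl⟩ := hc
  unfold dSn at hw
  rcases Finset.mem_union.1 hw with hw | hw
  · exact ⟨w, hw, ⟨h1, h2⟩, rfl⟩
  · obtain ⟨u, hu, rfl⟩ := Finset.mem_image.1 hw
    have h3 := mem_of_shh h i (hS.mem u hu) (hS.at0 u hu) h1
    have h4 := shh_class (hS.mem u hu) h3 (hS.at0 u hu) h
    refine ⟨u, hu, ⟨h3, fun h5 => h2 (shh_mem h5 h)⟩, ?_⟩
    rw [eq_comm, QuotientGroup.eq]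
    exact h4

/-- the level of a sequence -/
theorem exists_lev {L : ℕ} (hL : Φ L = ⊥) {u : ℕ → G} (hu : u ∈ PS hΦ 0) (hu1 : u ≠ 1) :
    ∃ i, i < L ∧ u ∈ PS hΦ i ∧ u ∉ PS hΦ (i + 1) := by
  by_contra hcon
  push Not at hcon
  have h1 : ∀ i ≤ L, u ∈ PS hΦ i := by
    intro i
    induction i with
    | zero => exact fun _ => hu
    | succ i ih => exact fun hi => hcon i (by omega) (ih (by omega))
  apply hu1
  funext n
  have h2 := PS_val (h1 L le_rfl) n
  rw [hL, Subgroup.mem_bot] at h2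
  exact h2

open Classical in
/-- a translate with smaller weight -/
theorem exists_tS {L : ℕ} (hL : Φ L = ⊥) {S : Finset (ℕ → G)} (hS : Adn hΦ S)
    (hne : S.Nonempty) (h1 : (1 : ℕ → G) ∉ S) {w : Fin L → ℕ} (hw : ∀ i : Fin L, (clf hΦ S i).card ≤ w i)
    {m : ℕ} (hm : S.card ≤ m) :
    ∃ u₁ ∈ S, ∃ i₁ : Fin L, 1 ≤ w i₁ ∧ ∀ i : Fin L, (clf hΦ (tSn u₁ S) i).card ≤ wdn w i₁ m i := by
  have hlt : ∀ u ∈ S, ∃ i, i < L ∧ u ∈ PS hΦ i ∧ u ∉ PS hΦ (i + 1) := fun u hu =>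
    exists_lev hL (hS.mem u hu) (fun h => h1 (h ▸ hu))
  choose! lev hlev1 hlev2 hlev3 using hlt
  obtain ⟨g₁, hg₁, hmax⟩ := Finset.exists_max_image S lev hne
  have hg₁i := hlev2 g₁ hg₁
  have hg₁n := hlev3 g₁ hg₁
  refine ⟨g₁, hg₁, ⟨lev g₁, hlev1 g₁ hg₁⟩, ?_, ?_⟩
  · refine le_trans ?_ (hw ⟨lev g₁, hlev1 g₁ hg₁⟩)
    rw [Nat.one_le_iff_ne_zero, ← Nat.pos_iff_ne_zero, Finset.card_pos]
    exact ⟨QuotientGroup.mk g₁, mem_clf.2 ⟨g₁, hg₁, ⟨hg₁i, hg₁n⟩, rfl⟩⟩
  rintro ⟨i, hiL⟩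
  unfold wdn
  by_cases h2 : i < lev g₁
  · rw [if_pos (by exact h2)]
    refine le_trans (Finset.card_le_card ?_) (hw ⟨i, hiL⟩)
    intro c hc
    rw [mem_clf] at hc ⊢
    obtain ⟨v, hv, ⟨hj1, hj2⟩, rfl⟩ := hc
    unfold tSn at hv
    obtain ⟨u, hu, rfl⟩ := Finset.mem_image.1 hv
    have hgi : g₁ ∈ PS hΦ i := PS_le h2.le hg₁i
    have hgi1 : g₁ ∈ PS hΦ (i + 1) := PS_le h2 hg₁i
    have h3 : u ∈ PS hΦ i := by
      have e1 : u = g₁ * (g₁⁻¹ * u) := by rw [mul_inv_cancel_left]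
      rw [e1]
      exact Subgroup.mul_mem _ hgi hj1
    have h6 : (g₁⁻¹ * u)⁻¹ * u ∈ PS hΦ (i + 1) := by
      have e2 : (g₁⁻¹ * u)⁻¹ * u = u⁻¹ * g₁ * u := by group
      rw [e2]
      exact PS_conj hgi1 (hS.mem u hu)
    refine ⟨u, hu, ⟨h3, fun h7 => hj2 ?_⟩, ?_⟩
    · exact Subgroup.mul_mem _ (Subgroup.inv_mem _ hgi1) h7
    · rw [eq_comm, QuotientGroup.eq]
      exact h6
  rw [if_neg (by exact h2)]
  by_cases h3 : i = lev g₁
  swap
  · rw [if_neg (by
      intro h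
      exact h3 (congrArg Fin.val h))]
    refine (card_clf _ i).trans (le_trans ?_ hm)
    unfold tSn
    exact Finset.card_image_le
  subst h3
  rw [if_pos rfl]
  have hold : (QuotientGroup.mk g₁ : (ℕ → G) ⧸ PS hΦ (lev g₁ + 1)) ∈ clf hΦ S (lev g₁) :=
    mem_clf.2 ⟨g₁, hg₁, ⟨hg₁i, hg₁n⟩, rfl⟩
  have hsub : clf hΦ (tSn g₁ S) (lev g₁) ⊆
      ((clf hΦ S (lev g₁)).erase (QuotientGroup.mk g₁)).image (fun c => g₁⁻¹ • c) := by
    intro c hc
    rw [mem_clf] at hc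
    obtain ⟨v, hv, ⟨hj1, hj2⟩, rfl⟩ := hc
    unfold tSn at hv
    obtain ⟨u, hu, rfl⟩ := Finset.mem_image.1 hv
    have h4 : u ∈ PS hΦ (lev g₁) := by
      have e1 : u = g₁ * (g₁⁻¹ * u) := by rw [mul_inv_cancel_left]
      rw [e1]
      exact Subgroup.mul_mem _ hg₁i hj1
    have h7 : u ∉ PS hΦ (lev g₁ + 1) := by
      intro h8
      have h9 := hmax u hu
      exact hlev3 u hu (PS_le (by omega) h8)
    rw [Finset.mem_image]
    refine ⟨QuotientGroup.mk u, ?_, rfl⟩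
    rw [Finset.mem_erase]
    refine ⟨?_, mem_clf.2 ⟨u, hu, ⟨h4, h7⟩, rfl⟩⟩
    intro h8
    rw [eq_comm, QuotientGroup.eq] at h8
    exact hj2 h8
  refine (Finset.card_le_card hsub).trans (Finset.card_image_le.trans ?_)
  rw [Finset.card_erase_of_mem hold]
  exact Nat.sub_le_sub_right (hw ⟨lev g₁, hlev1 g₁ hg₁⟩) 1

/-! ### Nonvanishing -/

theorem pd_zero_of_shift {E : ℕ} {f : ℕ → M} (hf : PD E f) {h : ℕ} (h0 : ∀ n, f (n + h) = 0) :
    f = 0 := by
  by_contra hne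
  obtain ⟨k, v, hv, hk⟩ := exists_top hf hne
  apply hv
  have h1 : (fun n => f (n + h)) = 0 := funext h0
  have h2 := it_shift h k f
  rw [h1, Pool.Agent.Helper26K1.AP.it_zero] at h2
  have h3 := congrFun h2 0
  rw [Pi.zero_apply, hk] at h3
  exact h3.symm

theorem rho_inj (hρ : ∀ g h x, ρ (g * h) x = ρ g (ρ h x)) (hρ1 : ∀ x, ρ 1 x = x) (g : G) {x : M}
    (hx : ρ g x = 0) : x = 0 := by
  have h1 := hρ g⁻¹ g x
  rw [inv_mul_cancel, hρ1, hx, map_zero] at h1
  exact h1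

open Classical in
/-- nonvanishing: there are few bad distances -/
theorem exists_nzn {L : ℕ} (hL : Φ L = ⊥)
    (htf : ∀ g ∈ Φ 0, ∀ k : ℕ, 1 ≤ k → g ^ k = 1 → g = 1)
    (hρ : ∀ g h x, ρ (g * h) x = ρ g (ρ h x)) (hρ1 : ∀ x, ρ 1 x = x)
    (hfree : ∀ g ∈ Φ 0, g ≠ 1 → ∀ x, ρ g x = x → x = 0)
    {m E : ℕ} {S : Finset (ℕ → G)} {V : (ℕ → G) → ℕ → M} (hS : Adn hΦ S) (hcard : S.card ≤ m)
    (hpd : ∀ u ∈ S, PD (E + 1) (V u)) (hnz : ∀ u ∈ S, V u ≠ 0) (hne : ∃ u ∈ S, u ≠ 1) :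
    ∃ H : Finset ℕ, H.card ≤ m ^ m ∧
      ∀ h, 1 ≤ h → h ∉ H → ∃ Q ∈ dSn h S, dVn ρ h S V Q ≠ 0 := by
  -- bad distances
  let bad : ℕ → Prop := fun h => 1 ≤ h ∧ ∀ Q ∈ dSn h S, dVn ρ h S V Q = 0
  have hfil : ∀ h, ∀ u ∈ S, S.filter (fun u' => shh h u' = shh h u) = {u} := by
    intro h u hu
    ext u'
    rw [Finset.mem_filter, Finset.mem_singleton]
    constructor
    · rintro ⟨h1, h2⟩
      exact shh_inj hL htf (hS.mem u' h1) (hS.mem u hu) (hS.at0 u' h1) (hS.at0 u hu) h2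
    · rintro rfl
      exact ⟨hu, rfl⟩
  have hdv : ∀ h, ∀ u ∈ S, ∀ n, dVn ρ h S V (shh h u) n =
      ρ (u h) (V u (n + h)) - if shh h u ∈ S then V (shh h u) n else 0 := by
    intro h u hu n
    unfold dVn
    rw [hfil h u hu, Finset.sum_singleton]
  have hin : ∀ h, bad h → ∀ u ∈ S, shh h u ∈ S := by
    intro h hb u hu
    by_contra hQ
    have h1 := hb.2 (shh h u) (Finset.mem_union_right _ (Finset.mem_image_of_mem _ hu))
    apply hnz u hu
    refine pd_zero_of_shift (hpd u hu) (h := h) fun n => ?_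
    have h2 := congrFun h1 n
    rw [hdv h u hu, if_neg hQ, sub_zero] at h2
    exact rho_inj hρ hρ1 _ h2
  have hval : ∀ h, bad h → ∀ u ∈ S, ∀ n, ρ (u h) (V u (n + h)) = V (shh h u) n := by
    intro h hb u hu n
    have h1 := congrFun (hb.2 (shh h u) (Finset.mem_union_right _
      (Finset.mem_image_of_mem _ hu))) n
    rw [hdv h u hu, if_pos (hin h hb u hu)] at h1
    exact sub_eq_zero.1 h1
  have key : ∀ h h', bad h → bad h' → h < h' → (∀ u ∈ S, shh h u = shh h' u) → False := by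
    intro h h' hb hb' hlt hsame
    obtain ⟨u, hu, hu1⟩ := hne
    apply hu1
    obtain ⟨k, hk⟩ := Nat.exists_eq_add_of_lt hlt
    set k' := k + 1 with hk'
    have hhk : h' = h + k' := by omega
    set c := (u h)⁻¹ * u h' with hc
    have hf : ∀ n, ρ c ((fun n => V u (n + h)) (n + k')) = (fun n => V u (n + h)) n := by
      intro n
      show ρ ((u h)⁻¹ * u h') (V u (n + k' + h)) = V u (n + h)
      have e1 : n + k' + h = n + h' := by omega
      rw [e1, hρ, hval h' hb' u hu, ← hsame u hu, ← hval h hb u hu, ← hρ, inv_mul_cancel, hρ1]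
    have hcm : c ∈ Φ 0 := Subgroup.mul_mem _ (Subgroup.inv_mem _ (PS_val (hS.mem u hu) h))
      (PS_val (hS.mem u hu) h')
    have hc1 : c = 1 := by
      by_contra hc1
      have h1 : (fun n => V u (n + h)) ≠ 0 := fun h2 =>
        hnz u hu (pd_zero_of_shift (hpd u hu) (fun n => congrFun h2 n))
      apply ne_of_inj ((hpd u hu).shift h) h1 (ρ c) (hfree c hcm hc1) k'
      funext n
      show ρ c ((fun n => V u (n + h)) (n + k')) - (fun n => V u (n + h)) n = 0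
      rw [hf n, sub_self]
    have huh : u h = u h' := by
      have := hc1
      rw [hc] at this
      exact inv_mul_eq_one.1 this
    have hper : ∀ n, u (n + h + k') = u (n + h) := by
      intro n
      have h1 := congrFun (hsame u hu) n
      unfold shh at h1
      rw [← huh] at h1
      have h2 := mul_right_cancel h1
      rw [h2]
      congr 1
      omega
    have hconst := periodic_const hL htf (h := h) (k := k') (by omega) L u
      (by
        rw [Nat.sub_self]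
        exact hS.mem u hu) hper
    funext n
    rw [hconst n, hS.at0 u hu]
    rfl
  -- the set of bad distances
  let Fm : {h // bad h} → (S → S) := fun h u => ⟨shh h.1 u.1, hin h.1 h.2 u.1 u.2⟩
  have hFm : Function.Injective Fm := by
    intro h h' e
    have hsame : ∀ u ∈ S, shh h.1 u = shh h'.1 u := fun u hu =>
      congrArg Subtype.val (congrFun e ⟨u, hu⟩)
    rcases lt_trichotomy h.1 h'.1 with h1 | h1 | h1
    · exact (key _ _ h.2 h'.2 h1 hsame).elim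
    · exact Subtype.ext h1
    · exact (key _ _ h'.2 h.2 h1 (fun u hu => (hsame u hu).symm)).elim
  have hfinT : Finite {h // bad h} := Finite.of_injective Fm hFm
  have hfin : Set.Finite {h | bad h} := hfinT
  have hm1 : 1 ≤ m := by
    obtain ⟨u, hu, _⟩ := hne
    exact (Nat.succ_le_of_lt (Finset.card_pos.2 ⟨u, hu⟩)).trans hcard
  refine ⟨hfin.toFinset, ?_, fun h h1 h2 => ?_⟩
  · have e1 : hfin.toFinset.card = Nat.card {h // bad h} := by
      rw [← Set.ncard_eq_toFinset_card _ hfin]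
      rfl
    rw [e1]
    have e2 : Nat.card {h // bad h} ≤ Nat.card (S → S) := Nat.card_le_card_of_injective Fm hFm
    refine e2.trans ?_
    rw [Nat.card_eq_fintype_card, Fintype.card_fun, Fintype.card_coe]
    exact (Nat.pow_le_pow_left hcard _).trans (Nat.pow_le_pow_right hm1 hcard)
  · by_contra hcon
    push Not at hcon
    apply h2
    rw [Set.Finite.mem_toFinset]
    exact ⟨h1, hcon⟩

/-! ### Few zeros -/

open Classical in
theorem pd_dVn {S : Finset (ℕ → G)} {V : (ℕ → G) → ℕ → M} {E : ℕ} (hV : ∀ u ∈ S, PD E (V u))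
    (h : ℕ) (w : ℕ → G) : PD E (dVn ρ h S V w) := by
  unfold dVn
  refine PD.sub (PD.sum _ fun u hu => ?_) ?_
  · exact ((hV u (Finset.mem_filter.1 hu).1).shift h).map _
  · by_cases hQ : w ∈ S
    · simp only [if_pos hQ]
      exact hV w hQ
    · simp only [if_neg hQ]
      exact PD.zero _

open Classical in
theorem dVn_one {L : ℕ} (hL : Φ L = ⊥)
    (htf : ∀ g ∈ Φ 0, ∀ k : ℕ, 1 ≤ k → g ^ k = 1 → g = 1) (hρ1 : ∀ x, ρ 1 x = x)
    {S : Finset (ℕ → G)} (hS : Adn hΦ S) {V : (ℕ → G) → ℕ → M} (h : ℕ)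
    (h0 : (1 : ℕ → G) ∈ S) : dVn ρ h S V 1 = fun n => V 1 (n + h) - V 1 n := by
  funext n
  unfold dVn
  have e1 : S.filter (fun u => shh h u = 1) = {1} := by
    ext u
    rw [Finset.mem_filter, Finset.mem_singleton]
    constructor
    · rintro ⟨h1, h2⟩
      exact shh_eq_one hL htf (hS.mem u h1) (hS.at0 u h1) h2
    · rintro rfl
      exact ⟨h0, shh_one h⟩
  rw [e1, Finset.sum_singleton, if_pos h0, Pi.one_apply, hρ1]

open Classical in
theorem dVn_one' {L : ℕ} (hL : Φ L = ⊥)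
    (htf : ∀ g ∈ Φ 0, ∀ k : ℕ, 1 ≤ k → g ^ k = 1 → g = 1)
    {S : Finset (ℕ → G)} (hS : Adn hΦ S) {V : (ℕ → G) → ℕ → M} (h : ℕ)
    (h0 : (1 : ℕ → G) ∉ S) : dVn ρ h S V 1 = 0 := by
  funext n
  unfold dVn
  have e1 : S.filter (fun u => shh h u = 1) = ∅ := by
    rw [Finset.filter_eq_empty_iff]
    intro u h1 h2
    have h3 := shh_eq_one hL htf (hS.mem u h1) (hS.at0 u h1) h2
    rw [h3] at h1
    exact h0 h1
  rw [e1, Finset.sum_empty, if_neg h0, sub_zero]
  rfl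

/-- families with coefficients -/
structure Gdn (hΦ : Fil Φ) (L m E e : ℕ) (w : Fin L → ℕ) (S : Finset (ℕ → G))
    (V : (ℕ → G) → ℕ → M) : Prop where
  adn : Adn hΦ S
  ne : S.Nonempty
  card : S.card ≤ m
  wt : ∀ i : Fin L, (clf hΦ S i).card ≤ w i
  pd : ∀ u ∈ S, PD (E + 1) (V u)
  nz : ∀ u ∈ S, V u ≠ 0
  pd1 : (1 : ℕ → G) ∈ S → PD e (V 1)

/-- the bound -/
def Bdn (hΦ : Fil Φ) (ρ : G → M →+ M) (L m E e : ℕ) (w : Fin L → ℕ) (C δ : ℝ) : Prop :=
  ∀ (S : Finset (ℕ → G)) (V : (ℕ → G) → ℕ → M), Gdn hΦ L m E e w S V → ∀ N : ℕ, 1 ≤ N →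
    (zc (vl ρ S V) N : ℝ) ≤ C * (N : ℝ) ^ (1 - δ)

/-- **Few zeros.** -/
theorem nfew {L : ℕ} (hL : Φ L = ⊥)
    (htf : ∀ g ∈ Φ 0, ∀ k : ℕ, 1 ≤ k → g ^ k = 1 → g = 1)
    (hρ : ∀ g h x, ρ (g * h) x = ρ g (ρ h x)) (hρ1 : ∀ x, ρ 1 x = x)
    (hfree : ∀ g ∈ Φ 0, g ≠ 1 → ∀ x, ρ g x = x → x = 0)
    (E : ℕ) (hchar : (∀ h : ℕ, 1 ≤ h → ∀ x : M, h • x = 0 → x = 0) ∨ E = 0)
    (w : Fin L → ℕ) (e m : ℕ) :
    ∃ C δ : ℝ, 0 ≤ C ∧ 0 < δ ∧ δ ≤ 1 ∧ Bdn hΦ ρ L m E e w C δ := by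
  classical
  -- induction on the weight
  suffices H : ∀ w : Lex (Fin L → ℕ), ∀ e m : ℕ,
      ∃ C δ : ℝ, 0 ≤ C ∧ 0 < δ ∧ δ ≤ 1 ∧ Bdn hΦ ρ L m E e (ofLex w) C δ from H (toLex w) e m
  intro w
  induction w using WellFoundedLT.induction with
  | ind w IH =>
  set w' : Fin L → ℕ := ofLex w with hw'
  intro e
  induction e with
  | zero =>
    intro m
    obtain ⟨C, δ, hC, hδ0, hδ1, hQ⟩ := unif (Finset.univ : Finset (Fin L))
      (fun i C δ => 1 ≤ w' i → Bdn hΦ ρ L m E (E + 1) (wdn w' i m) C δ)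
      (fun i C δ C' δ' hC0 hCC hδδ h h1 S V hG N hN =>
        (h h1 S V hG N hN).trans (rpow_mono_delta hN hC0 hCC hδδ))
      (fun i _ => by
        by_cases hi : 1 ≤ w' i
        · obtain ⟨C, δ, h1, h2, h3, h4⟩ := IH (toLex (wdn w' i m)) (wdn_lt hi m) (E + 1) m
          exact ⟨C, δ, h1, h2, h3, fun _ => h4⟩
        · exact ⟨0, 1, le_rfl, one_pos, le_rfl, fun h => absurd h hi⟩)
    refine ⟨C, δ, hC, hδ0, hδ1, ?_⟩
    intro S V hG N hN
    have h1S : (1 : ℕ → G) ∉ S := fun h => hG.nz 1 h (hG.pd1 h)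
    obtain ⟨u₁, hu₁, i₁, hi₁, hwt⟩ := exists_tS hL hG.adn hG.ne h1S hG.wt hG.card
    have hG' : Gdn hΦ L m E (E + 1) (wdn w' i₁ m) (tSn u₁ S) (fun v => V (u₁ * v)) := by
      refine ⟨hG.adn.tS hu₁, hG.ne.image _, ?_, hwt, ?_, ?_, ?_⟩
      · unfold tSn
        exact Finset.card_image_le.trans hG.card
      · intro v hv
        unfold tSn at hv
        obtain ⟨u, hu, rfl⟩ := Finset.mem_image.1 hv
        show PD (E + 1) (V (u₁ * (u₁⁻¹ * u)))
        rw [mul_inv_cancel_left]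
        exact hG.pd u hu
      · intro v hv
        unfold tSn at hv
        obtain ⟨u, hu, rfl⟩ := Finset.mem_image.1 hv
        show V (u₁ * (u₁⁻¹ * u)) ≠ 0
        rw [mul_inv_cancel_left]
        exact hG.nz u hu
      · intro _
        show PD (E + 1) (V (u₁ * 1))
        rw [mul_one]
        exact hG.pd u₁ hu₁
    refine le_trans ?_ (hQ i₁ (Finset.mem_univ _) hi₁ _ _ hG' N hN)
    exact_mod_cast zc_mono (fun n hn => by
      rw [vl_tS hρ, hn, map_zero]) N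
  | succ e ihe =>
    intro m
    obtain ⟨C, δ, hC, hδ0, hδ1, hB⟩ := ihe (2 * m)
    refine ⟨3 + 2 * C + 2 * (m ^ m : ℕ), δ / 2, by positivity, by linarith, by linarith, ?_⟩
    intro S V hG N hN
    -- the nonvanishing of the family of the difference
    have hmain : (∀ n, vl ρ S V n ≠ 0) ∨ ∃ H : Finset ℕ, H.card ≤ m ^ m ∧
        ∀ h, 1 ≤ h → h ∉ H → ∃ Q ∈ dSn h S, dVn ρ h S V Q ≠ 0 := by
      by_cases hex : ∃ u ∈ S, u ≠ 1
      · exact Or.inr (exists_nzn hL htf hρ hρ1 hfree hG.adn hG.card hG.pd hG.nz hex)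
      · push Not at hex
        obtain ⟨u, hu⟩ := hG.ne
        have hu1 := hex u hu
        rw [hu1] at hu
        have hS0 : S = {1} := by
          ext v
          rw [Finset.mem_singleton]
          exact ⟨hex v, fun h => h ▸ hu⟩
        by_cases hdl : dl (V 1) = 0
        · left
          intro n
          unfold vl
          rw [hS0, Finset.sum_singleton, Pi.one_apply, hρ1, const_of_dl hdl n]
          intro h1
          apply hG.nz 1 hu
          funext k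
          rw [const_of_dl hdl k, h1]
          rfl
        · right
          have htf' := hchar.resolve_right (by
            rintro rfl
            exact hdl (hG.pd 1 hu))
          refine ⟨∅, by simp, fun h h1 _ => ⟨1, Finset.mem_union_left _ hu, ?_⟩⟩
          rw [dVn_one hL htf hρ1 hG.adn h hu]
          exact ne_of_tf (hG.pd 1 hu) hdl htf' h1
    rcases hmain with h1 | ⟨H, hH, hne⟩
    · have h2 : zc (vl ρ S V) N = 0 := by
        unfold zc
        rw [Finset.card_eq_zero, Finset.filter_eq_empty_iff]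
        intro n _
        exact h1 n
      rw [h2]
      push_cast
      positivity
    · refine zc_of_pairs (b := m ^ m) hC hδ1 hN H hH fun h h1 h2 => ?_
      set T := (dSn h S).filter (fun Q => dVn ρ h S V Q ≠ 0) with hT
      have hTS : T ⊆ dSn h S := Finset.filter_subset _ _
      have hG' : Gdn hΦ L (2 * m) E e w' T (dVn ρ h S V) := by
        refine ⟨(hG.adn.dS h).mono hTS, ?_, ?_, ?_, ?_, ?_, ?_⟩
        · obtain ⟨Q, hQ, hQ0⟩ := hne h h1 h2
          exact ⟨Q, Finset.mem_filter.2 ⟨hQ, hQ0⟩⟩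
        · have a1 := Finset.card_le_card hTS
          have a2 : (dSn h S).card ≤ S.card + S.card := by
            unfold dSn
            exact (Finset.card_union_le _ _).trans (Nat.add_le_add_left Finset.card_image_le _)
          have a3 := hG.card
          omega
        · intro i
          exact (Finset.card_le_card ((clf_mono hTS i).trans (clf_dS hG.adn h i))).trans (hG.wt i)
        · intro v _
          exact pd_dVn hG.pd h v
        · intro v hv
          exact (Finset.mem_filter.1 hv).2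
        · intro h3
          by_cases h4 : (1 : ℕ → G) ∈ S
          · rw [dVn_one hL htf hρ1 hG.adn h h4]
            exact (hG.pd1 h4).diff h
          · exact absurd (dVn_one' hL htf hG.adn h h4) (Finset.mem_filter.1 h3).2
      have e1 : (fun n => vl ρ S V (n + h) - vl ρ S V n) = vl ρ T (dVn ρ h S V) := by
        funext n
        rw [vl_diff hρ, hT, vl_filter]
      rw [e1]
      exact hB T _ hG' N hN

end Pool.Agent.Helper26K1.AB
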