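import Pool.Agent.Helper26K1.AP.Nil
import Pool.Agent.Helper26K1.AP.Pet

/-!
# Fixed sums over polynomial orbits of nilpotent groups are polynomial
-/

set_option autoImplicit false

open Finset
open scoped commutatorElement

noncomputable section

namespace Pool.Agent.Helper26K1.AB

open Pool.Agent.Helper26K1.AP (dd Qp Q_drop Q_weak Q_le Q_all dl PD wdn wdn_lt fil fil_anti fil_comm)

variable {G : Type*} [Group G]

theorem dd_one : dd (1 : ℕ → G) = 1 := by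
  funext n
  simp [dd]

theorem Q_one (Φ : ℕ → Subgroup G) : ∀ m i : ℕ, Qp Φ m i (1 : ℕ → G)
  | 0, i => fun _ => (Φ i).one_mem
  | m + 1, i => ⟨fun _ => (Φ i).one_mem, by
      rw [dd_one]
      exact Q_one Φ m (i + 1)⟩

/-- a filtration -/
structure Fil (Φ : ℕ → Subgroup G) : Prop where
  anti : ∀ i, Φ (i + 1) ≤ Φ i
  comm : ∀ i j, ∀ a ∈ Φ i, ∀ b ∈ Φ j, ⁅a, b⁆ ∈ Φ (i + j)

variable {Φ : ℕ → Subgroup G}

/-- polynomial sequences of level `i` -/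
def PS (hΦ : Fil Φ) (i : ℕ) : Subgroup (ℕ → G) where
  carrier := {g | ∀ m, Qp Φ m i g}
  mul_mem' := fun {f g} hf hg m => (Q_all Φ hΦ.anti hΦ.comm m).1 i f g (hf m) (hg m)
  one_mem' := fun m => Q_one Φ m i
  inv_mem' := fun {f} hf m => (Q_all Φ hΦ.anti hΦ.comm m).2.1 i f (hf m)

variable {hΦ : Fil Φ}

theorem PS_comm {i j : ℕ} {f g : ℕ → G} (hf : f ∈ PS hΦ i) (hg : g ∈ PS hΦ j) :
    ⁅f, g⁆ ∈ PS hΦ (i + j) := fun m => (Q_all Φ hΦ.anti hΦ.comm m).2.2 i j f g (hf m) (hg m)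

theorem PS_le {i j : ℕ} (h : i ≤ j) : PS hΦ j ≤ PS hΦ i := fun f hf m => Q_le Φ hΦ.anti m h f (hf m)

theorem PS_dd {i : ℕ} {f : ℕ → G} (hf : f ∈ PS hΦ i) : dd f ∈ PS hΦ (i + 1) :=
  fun m => (hf (m + 1)).2

theorem PS_val {i : ℕ} {f : ℕ → G} (hf : f ∈ PS hΦ i) (n : ℕ) : f n ∈ Φ i := hf 0 n

theorem PS_conj {i : ℕ} {f g : ℕ → G} (hf : f ∈ PS hΦ i) (hg : g ∈ PS hΦ 0) :
    g⁻¹ * f * g ∈ PS hΦ i := by
  have h1 : g⁻¹ * f * g = ⁅g⁻¹, f⁆ * f := by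
    rw [commutatorElement_def]
    group
  rw [h1]
  refine (PS hΦ i).mul_mem ?_ hf
  have := PS_comm ((PS hΦ 0).inv_mem hg) hf
  rwa [zero_add] at this

/-- the shift -/
def sh (f : ℕ → G) : ℕ → G := fun n => f (n + 1)

theorem sh_eq (f : ℕ → G) : sh f = dd f * f := by
  funext n
  show f (n + 1) = f (n + 1) * (f n)⁻¹ * f n
  rw [inv_mul_cancel_right]

theorem sh_mem {i : ℕ} {f : ℕ → G} (hf : f ∈ PS hΦ i) : sh f ∈ PS hΦ i := by
  rw [sh_eq]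
  exact (PS hΦ i).mul_mem (PS_le (Nat.le_succ i) (PS_dd hf)) hf

theorem sh_class {i : ℕ} {f : ℕ → G} (h0 : f ∈ PS hΦ 0) (hf : f ∈ PS hΦ i) :
    (sh f)⁻¹ * f ∈ PS hΦ (i + 1) := by
  have h1 : (sh f)⁻¹ * f = (f⁻¹ * dd f * f)⁻¹ := by
    rw [sh_eq]
    group
  rw [h1]
  exact (PS hΦ (i + 1)).inv_mem (PS_conj (PS_dd hf) h0)

theorem mem_of_sh : ∀ (i : ℕ) {f : ℕ → G}, f ∈ PS hΦ 0 → sh f ∈ PS hΦ i → f ∈ PS hΦ i
  | 0, _, h0, _ => h0
  | i + 1, f, h0, h => by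
    have h1 : f ∈ PS hΦ i := mem_of_sh i h0 (PS_le (Nat.le_succ i) h)
    have h2 : f = (dd f)⁻¹ * sh f := by
      rw [sh_eq]
      group
    rw [h2]
    exact (PS hΦ (i + 1)).mul_mem ((PS hΦ (i + 1)).inv_mem (PS_dd h1)) h

variable {M : Type*} [AddCommGroup M]

open Classical in
/-- the classes of level `i` -/
def cls (hΦ : Fil Φ) {J : Type} [Fintype J] (g : J → ℕ → G) (i : ℕ) :
    Finset ((ℕ → G) ⧸ PS hΦ (i + 1)) :=
  (univ.filter fun j => g j ∈ PS hΦ i ∧ g j ∉ PS hΦ (i + 1)).image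
    fun j => (QuotientGroup.mk (g j) : (ℕ → G) ⧸ PS hΦ (i + 1))

theorem mem_cls {J : Type} [Fintype J] {g : J → ℕ → G} {i : ℕ} {c : (ℕ → G) ⧸ PS hΦ (i + 1)} :
    c ∈ cls hΦ g i ↔ ∃ j, (g j ∈ PS hΦ i ∧ g j ∉ PS hΦ (i + 1)) ∧
      (QuotientGroup.mk (g j) : (ℕ → G) ⧸ PS hΦ (i + 1)) = c := by
  classical
  unfold cls
  simp only [Finset.mem_image, Finset.mem_filter, Finset.mem_univ, true_and]

theorem card_cls {J : Type} [Fintype J] (g : J → ℕ → G) (i : ℕ) :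
    (cls hΦ g i).card ≤ Fintype.card J := by
  classical
  unfold cls
  exact Finset.card_image_le.trans (Finset.card_filter_le _ _)

/-- **Sums over polynomial orbits of a nilpotent group with values in the fixed elements are
polynomial.** -/
theorem npet {L : ℕ} (hL : Φ L = ⊥) {ρ : G → M →+ M}
    (hρ : ∀ g h x, ρ (g * h) x = ρ g (ρ h x)) (hρ1 : ∀ x, ρ 1 x = x) {K : AddSubgroup M}
    (hK : ∀ s ∈ Φ 0, ∀ x ∈ K, ρ s x = x) {J : Type} [Fintype J] (g : J → ℕ → G) (v : J → M)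
    (hg : ∀ j, g j ∈ PS hΦ 0) (hF : ∀ n, ∑ j, ρ (g j n) (v j) ∈ K) :
    ∃ T, PD T (fun n => ∑ j, ρ (g j n) (v j)) := by
  suffices H : ∀ w : Lex (Fin L → ℕ), ∀ (J : Type) [Fintype J] (g : J → ℕ → G) (v : J → M),
      (∀ j, g j ∈ PS hΦ 0) → (∀ i : Fin L, (cls hΦ g i).card ≤ ofLex w i) →
      (∀ n, ∑ j, ρ (g j n) (v j) ∈ K) → ∃ T, PD T (fun n => ∑ j, ρ (g j n) (v j)) from
    H (toLex fun _ => Fintype.card J) J g v hg (fun i => card_cls g i) hF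
  intro w
  induction w using WellFoundedLT.induction with
  | ind w IH =>
  intro J _ g v hg hw hF
  classical
  -- without the identity
  let J' : Type := {j : J // g j ≠ 1}
  let g' : J' ⊕ J' → ℕ → G := Sum.elim (fun j => sh (g j.1)) (fun j => g j.1)
  let v' : J' ⊕ J' → M := Sum.elim (fun j => v j.1) (fun j => -v j.1)
  have hsplit : ∀ n, ∑ j, ρ (g j n) (v j) =
      ∑ j : J', ρ (g j.1 n) (v j.1) + ∑ j ∈ univ.filter (fun j => ¬ g j ≠ 1), v j := by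
    intro n
    rw [← Finset.sum_filter_add_sum_filter_not univ (fun j => g j ≠ 1)]
    congr 1
    · exact Finset.sum_subtype _ (by simp) _
    · refine Finset.sum_congr rfl fun j hj => ?_
      have h1 := (Finset.mem_filter.1 hj).2
      rw [not_not] at h1
      rw [h1, Pi.one_apply, hρ1]
  have hdF : ∀ n, ∑ j, ρ (g j (n + 1)) (v j) - ∑ j, ρ (g j n) (v j) =
      ∑ j, ρ (g' j n) (v' j) := by
    intro n
    rw [hsplit, hsplit, Fintype.sum_sum_type, add_sub_add_right_eq_sub, sub_eq_add_neg,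
      ← Finset.sum_neg_distrib]
    congr 1
    refine Finset.sum_congr rfl fun j _ => ?_
    show -ρ (g j.1 n) (v j.1) = ρ (g j.1 n) (-v j.1)
    rw [map_neg]
  have hdK : ∀ n, ∑ j, ρ (g' j n) (v' j) ∈ K := by
    intro n
    rw [← hdF]
    exact K.sub_mem (hF (n + 1)) (hF n)
  suffices hT : ∃ T, PD T (fun n => ∑ j, ρ (g' j n) (v' j)) by
    obtain ⟨T, hT⟩ := hT
    refine ⟨T + 1, Pool.Agent.Helper26K1.AP.PD.of_dl ?_⟩
    refine Eq.trans ?_ hT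
    congr 1
    funext n
    exact hdF n
  rcases isEmpty_or_nonempty J' with he | hne
  · refine ⟨0, ?_⟩
    funext n
    show ∑ j, ρ (g' j n) (v' j) = 0
    exact Finset.sum_of_isEmpty _
  -- the level
  have hlt : ∀ j : J', ∃ i, i < L ∧ g j.1 ∈ PS hΦ i ∧ g j.1 ∉ PS hΦ (i + 1) := by
    intro j
    by_contra hcon
    push Not at hcon
    have h1 : ∀ i ≤ L, g j.1 ∈ PS hΦ i := by
      intro i
      induction i with
      | zero => exact fun _ => hg j.1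
      | succ i ih => exact fun hi => hcon i (by omega) (ih (by omega))
    apply j.2
    funext n
    have h2 := PS_val (h1 L le_rfl) n
    rw [hL, Subgroup.mem_bot] at h2
    exact h2
  choose lev hlev1 hlev2 hlev3 using hlt
  obtain ⟨j₁, _, hmax⟩ := Finset.exists_max_image (univ : Finset J') lev univ_nonempty
  set i₁ := lev j₁ with hi₁
  set g₁ := g j₁.1 with hg₁
  have hg₁0 : g₁ ∈ PS hΦ 0 := hg j₁.1
  have hg₁i : g₁ ∈ PS hΦ i₁ := hlev2 j₁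
  have hg₁n : g₁ ∉ PS hΦ (i₁ + 1) := hlev3 j₁
  let g'' : J' ⊕ J' → ℕ → G := fun j => g₁⁻¹ * g' j
  have hF'' : ∀ n, ∑ j, ρ (g'' j n) (v' j) = ∑ j, ρ (g' j n) (v' j) := by
    intro n
    have h1 : ∑ j, ρ (g'' j n) (v' j) = ρ (g₁ n)⁻¹ (∑ j, ρ (g' j n) (v' j)) := by
      rw [map_sum]
      exact Finset.sum_congr rfl fun j _ => hρ _ _ _
    rw [h1]
    exact hK _ ((Φ 0).inv_mem (PS_val hg₁0 n)) _ (hdK n)
  have hg'0 : ∀ j, g' j ∈ PS hΦ 0 := by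
    rintro (j | j)
    · exact sh_mem (hg j.1)
    · exact hg j.1
  have hIH := IH (toLex (wdn (ofLex w) ⟨i₁, hlev1 j₁⟩ (Fintype.card (J' ⊕ J')))) (wdn_lt (by
      refine le_trans ?_ (hw ⟨i₁, hlev1 j₁⟩)
      rw [Nat.one_le_iff_ne_zero, ← Nat.pos_iff_ne_zero, Finset.card_pos]
      exact ⟨QuotientGroup.mk g₁, mem_cls.2 ⟨j₁.1, ⟨hg₁i, hg₁n⟩, rfl⟩⟩) _)
    (J' ⊕ J') g'' v' (fun j => (PS hΦ 0).mul_mem ((PS hΦ 0).inv_mem hg₁0) (hg'0 j)) ?_
    (fun n => by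
      rw [hF'']
      exact hdK n)
  · obtain ⟨T, hT⟩ := hIH
    refine ⟨T, ?_⟩
    simp only [hF''] at hT
    exact hT
  -- the weights
  -- data of a member of the new family
  have hback : ∀ j : J' ⊕ J', ∃ k : J', (∀ i, g' j ∈ PS hΦ i → g k.1 ∈ PS hΦ i) ∧
      ∀ i, g k.1 ∈ PS hΦ i → (g' j)⁻¹ * g k.1 ∈ PS hΦ (i + 1) := by
    rintro (k | k)
    · exact ⟨k, fun i h => mem_of_sh i (hg k.1) h, fun i h => sh_class (hg k.1) h⟩
    · refine ⟨k, fun i h => h, fun i _ => ?_⟩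
      show (g k.1)⁻¹ * g k.1 ∈ _
      rw [inv_mul_cancel]
      exact Subgroup.one_mem _
  rintro ⟨i, hiL⟩
  show (cls hΦ g'' i).card ≤ wdn (ofLex w) ⟨i₁, hlev1 j₁⟩ (Fintype.card (J' ⊕ J')) ⟨i, hiL⟩
  unfold wdn
  by_cases h1 : i < i₁
  · rw [if_pos (by exact h1)]
    refine le_trans (Finset.card_le_card ?_) (hw ⟨i, hiL⟩)
    intro c hc
    rw [mem_cls] at hc ⊢
    obtain ⟨j, ⟨hj1, hj2⟩, rfl⟩ := hc
    obtain ⟨k, hk1, hk2⟩ := hback j
    have hgi : g₁ ∈ PS hΦ i := PS_le h1.le hg₁i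
    have hgi1 : g₁ ∈ PS hΦ (i + 1) := PS_le h1 hg₁i
    have e1 : g' j = g₁ * g'' j := by
      show g' j = g₁ * (g₁⁻¹ * g' j)
      rw [mul_inv_cancel_left]
    have h3 : g' j ∈ PS hΦ i := by
      rw [e1]
      exact (PS hΦ i).mul_mem hgi hj1
    have h4 := hk1 i h3
    have h5 := hk2 i h4
    have h6 : (g'' j)⁻¹ * g k.1 ∈ PS hΦ (i + 1) := by
      have e2 : (g'' j)⁻¹ * g k.1 = (g' j)⁻¹ * g k.1 * ((g k.1)⁻¹ * g₁ * g k.1) := by
        show (g₁⁻¹ * g' j)⁻¹ * g k.1 = _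
        group
      rw [e2]
      exact (PS hΦ (i + 1)).mul_mem h5 (PS_conj hgi1 (hg k.1))
    refine ⟨k.1, ⟨h4, fun h7 => hj2 ?_⟩, ?_⟩
    · have e3 : g'' j = g k.1 * ((g'' j)⁻¹ * g k.1)⁻¹ := by group
      rw [e3]
      exact (PS hΦ (i + 1)).mul_mem h7 ((PS hΦ (i + 1)).inv_mem h6)
    · rw [eq_comm, QuotientGroup.eq]
      exact h6
  rw [if_neg (by exact h1)]
  by_cases h2 : i = i₁
  swap
  · rw [if_neg (by
      intro h
      exact h2 (congrArg Fin.val h))]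
    exact card_cls g'' i
  subst h2
  rw [if_pos rfl]
  -- the classes of the new family
  have hold : (QuotientGroup.mk g₁ : (ℕ → G) ⧸ PS hΦ (lev j₁ + 1)) ∈ cls hΦ g (lev j₁) :=
    mem_cls.2 ⟨j₁.1, ⟨hg₁i, hg₁n⟩, rfl⟩
  have hsub : cls hΦ g'' (lev j₁) ⊆
      ((cls hΦ g (lev j₁)).erase (QuotientGroup.mk g₁)).image (fun c => g₁⁻¹ • c) := by
    intro c hc
    rw [mem_cls] at hc
    obtain ⟨j, ⟨hj1, hj2⟩, rfl⟩ := hc
    obtain ⟨k, hk1, hk2⟩ := hback j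
    have e1 : g' j = g₁ * g'' j := by
      show g' j = g₁ * (g₁⁻¹ * g' j)
      rw [mul_inv_cancel_left]
    have h3 : g' j ∈ PS hΦ (lev j₁) := by
      rw [e1]
      exact (PS hΦ (lev j₁)).mul_mem hg₁i hj1
    have h4 := hk1 _ h3
    have h5 := hk2 _ h4
    have h6 : (QuotientGroup.mk (g' j) : (ℕ → G) ⧸ PS hΦ (lev j₁ + 1)) =
        QuotientGroup.mk (g k.1) := by
      rw [QuotientGroup.eq]
      exact h5
    have h7 : g k.1 ∉ PS hΦ (lev j₁ + 1) := by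
      intro h8
      have h9 := hmax k (Finset.mem_univ _)
      apply hlev3 k
      exact PS_le (by omega) h8
    rw [Finset.mem_image]
    refine ⟨QuotientGroup.mk (g k.1), ?_, ?_⟩
    · rw [Finset.mem_erase]
      refine ⟨?_, mem_cls.2 ⟨k.1, ⟨h4, h7⟩, rfl⟩⟩
      rw [← h6]
      intro h8
      rw [eq_comm, QuotientGroup.eq] at h8
      exact hj2 h8
    · rw [← h6]
      rfl
  refine (Finset.card_le_card hsub).trans (Finset.card_image_le.trans ?_)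
  rw [Finset.card_erase_of_mem hold]
  exact Nat.sub_le_sub_right (hw ⟨lev j₁, hlev1 j₁⟩) 1

end Pool.Agent.Helper26K1.AB
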